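import Mathlib

set_option autoImplicit false

open Set Filter Topology

namespace Pool.Agent.Helper349.BCK

/-- The Cantor space. -/
abbrev G : Type := ℕ → Bool

/-- The labels: pairs `i < j` of natural numbers. -/
abbrev Lab : Type := {p : ℕ × ℕ // p.1 < p.2}

/-- A default label. -/
def lab0 : Lab := ⟨(0, 1), by norm_num⟩

/-- The clopen set of the sequences `x` with `x i ≠ x j`. -/
def cc (γ : Lab) : Set G := {x | x γ.1.1 ≠ x γ.1.2}

/-- Nodes of the tree `Lab ^ {< W}`: a length and a labelling of the ordinals below the length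
(the labelling is `lab0` above the length). -/
@[ext] structure Node (W : Type) [LinearOrder W] : Type where
  len : W
  val : W → Lab
  dflt : ∀ β, len ≤ β → val β = lab0

namespace Node

variable {W : Type} [LinearOrder W]

instance : PartialOrder (Node W) where
  le s t := s.len ≤ t.len ∧ ∀ α, α < s.len → s.val α = t.val α
  le_refl s := ⟨le_rfl, fun _ _ => rfl⟩
  le_trans s t r h1 h2 :=
    ⟨h1.1.trans h2.1, fun α hα => (h1.2 α hα).trans (h2.2 α (hα.trans_le h1.1))⟩
  le_antisymm s t h1 h2 := by
    have h : s.len = t.len := le_antisymm h1.1 h2.1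
    ext1
    · exact h
    · funext α
      rcases lt_or_ge α s.len with hα | hα
      · exact h1.2 α hα
      · rw [s.dflt α hα, t.dflt α (h ▸ hα)]

theorem le_def (s t : Node W) :
    s ≤ t ↔ s.len ≤ t.len ∧ ∀ α, α < s.len → s.val α = t.val α := Iff.rfl

/-- The restriction of a node to the ordinals below `β`. -/
def res (t : Node W) (β : W) : Node W :=
  ⟨min β t.len, fun α => if α < β then t.val α else lab0, by
    intro α hα
    by_cases h : α < β
    · simp only [h, if_true]
      apply t.dflt
      rcases min_le_iff.1 hα with h' | h'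
      · exact absurd h (not_lt.2 h')
      · exact h'
    · simp [h]⟩

/-- The immediate successor of `t` with label `γ`. -/
noncomputable def snoc [SuccOrder W] [NoMaxOrder W] (t : Node W) (γ : Lab) : Node W :=
  ⟨Order.succ t.len, Function.update t.val t.len γ, by
    intro β hβ
    have h1 : t.len < β := lt_of_lt_of_le (Order.lt_succ t.len) hβ
    rw [Function.update_of_ne h1.ne']
    exact t.dflt β h1.le⟩

/-- The root of the tree. -/
def root [OrderBot W] : Node W := ⟨⊥, fun _ => lab0, fun _ _ => rfl⟩

end Node

/-- The points of the compact space. -/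
inductive K (W : Type) [LinearOrder W] : Type
  | inf : K W
  | c (s : Node W) (g : G) : K W
  | p (s : Node W) : K W

variable {W : Type} [LinearOrder W]

/-- The clopen set attached to the node `t`. -/
def F (t : Node W) : Set (K W) := fun x => match x with
  | .inf => False
  | .c s g => s < t ∧ g ∈ cc (t.val s.len)
  | .p s => s ≤ t

/-- The block (a copy of the Cantor space) attached to the node `s`. -/
def B (s : Node W) : Set (K W) := fun x => match x with
  | .inf => False
  | .c s' _ => s' = s
  | .p _ => False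

@[simp] theorem mem_F_inf (t : Node W) : (K.inf : K W) ∈ F t ↔ False := Iff.rfl
@[simp] theorem mem_F_c (t s : Node W) (g : G) :
    (K.c s g : K W) ∈ F t ↔ s < t ∧ g ∈ cc (t.val s.len) := Iff.rfl
@[simp] theorem mem_F_p (t s : Node W) : (K.p s : K W) ∈ F t ↔ s ≤ t := Iff.rfl
@[simp] theorem mem_B_inf (t : Node W) : (K.inf : K W) ∈ B t ↔ False := Iff.rfl
@[simp] theorem mem_B_c (t s : Node W) (g : G) : (K.c s g : K W) ∈ B t ↔ s = t := Iff.rfl
@[simp] theorem mem_B_p (t s : Node W) : (K.p s : K W) ∈ B t ↔ False := Iff.rfl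

/-- The index set of the clopen subbasis. -/
abbrev Idx (W : Type) [LinearOrder W] : Type := Node W ⊕ (Node W × Option ℕ)

/-- The clopen subbasis. -/
def U : Idx W → Set (K W)
  | .inl t => F t
  | .inr (s, none) => B s
  | .inr (s, some i) => {x | ∃ g : G, x = K.c s g ∧ g i = true}

open Classical in
/-- The coordinates. -/
noncomputable def e (x : K W) : Idx W → Bool := fun i => decide (x ∈ U i)

/-- The topology generated by the sets `U i` and their complements. -/
noncomputable instance : TopologicalSpace (K W) := TopologicalSpace.induced e inferInstance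

/-- The normalised value of `f` at the point `p t`. -/
noncomputable def a (f : C(K W, ℝ)) (t : Node W) : ℝ := f (K.p t) - f K.inf

/-- The normalised values of `f` on the block of `t`. -/
noncomputable def u (f : C(K W, ℝ)) (t : Node W) (x : G) : ℝ := f (K.c t x) - f K.inf

open Classical in
/-- `f` is `ε`-regular at the node `t` in the direction `γ`. -/
def Rg [SuccOrder W] [NoMaxOrder W] (ε : ℝ) (t : Node W) (γ : Lab) (f : C(K W, ℝ)) : Prop :=
  (∀ x : G, |u f t x - (if x ∈ cc γ then a f t else 0)| ≤ ε) ∧
  |a f (t.snoc γ) - a f t| ≤ ε ∧ ∀ γ', γ' ≠ γ → |a f (t.snoc γ')| ≤ ε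

/-- `f` is `ε`-regular at the node `t`. -/
def Reg [SuccOrder W] [NoMaxOrder W] (ε : ℝ) (t : Node W) (f : C(K W, ℝ)) : Prop :=
  ∃ γ, Rg ε t γ f

/-- The weak topology of `C(K)`. -/
noncomputable abbrev wtop : TopologicalSpace C(K W, ℝ) :=
  TopologicalSpace.induced (fun f : C(K W, ℝ) => fun φ : C(K W, ℝ) →L[ℝ] ℝ => φ f) inferInstance

/-- The topology of pointwise convergence of `C(K)`. -/
noncomputable abbrev ptop : TopologicalSpace C(K W, ℝ) :=
  TopologicalSpace.induced (fun f : C(K W, ℝ) => (⇑f : K W → ℝ)) inferInstance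

/-- `f` has small drift outside `I`. -/
structure Good [SuccOrder W] [NoMaxOrder W] (f : C(K W, ℝ)) (I : Set (Node W)) (ε : ℝ) : Prop where
  reg : ∀ t, t ∉ I → Reg ε t f
  drift : ∀ s s', s ≤ s' → (∀ t, s ≤ t → t < s' → t ∉ I) → 10 * ε < |a f s'| →
    |a f s - a f s'| ≤ ε

end Pool.Agent.Helper349.BCK
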