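import Pool.Agent.Helper349.BCK.Base

set_option autoImplicit false

open Set Filter Topology

namespace Pool.Agent.Helper349.BCK

namespace P_W

variable {W : Type} [LinearOrder W]

theorem exists_W_bdd (s : ℕ → (Ordinal.omega.{0} 1).ToType) : ∃ b, ∀ n, s n < b := by
  have h1 : ⨆ n, ((Ordinal.ToType.toOrd (s n)).1) < Ordinal.omega.{0} 1 :=
    Ordinal.iSup_lt_omega_one fun n => (Ordinal.ToType.toOrd (s n)).2
  have h2 : Order.succ (⨆ n, ((Ordinal.ToType.toOrd (s n)).1)) < Ordinal.omega.{0} 1 :=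
    (Cardinal.isSuccLimit_omega 1).succ_lt h1
  refine ⟨Ordinal.ToType.mk ⟨_, h2⟩, fun n => ?_⟩
  have h3 : Ordinal.ToType.toOrd (s n) <
      (⟨_, h2⟩ : Set.Iio (Ordinal.omega.{0} 1)) := by
    refine Subtype.mk_lt_mk.2 ?_
    exact Order.lt_succ_of_le (Ordinal.le_iSup (fun n => ((Ordinal.ToType.toOrd (s n)).1)) n)
  have h4 := Ordinal.ToType.mk.lt_iff_lt.2 h3
  have h5 : Ordinal.ToType.mk (Ordinal.ToType.toOrd (s n)) = s n :=
    Ordinal.ToType.mk.apply_symm_apply (s n)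
  rwa [h5] at h4

theorem exists_W : ∃ (W : Type) (_ : LinearOrder W) (_ : WellFoundedLT W) (_ : SuccOrder W)
    (_ : NoMaxOrder W) (_ : OrderBot W), ∀ s : ℕ → W, ∃ b, ∀ n, s n < b := by
  have h0 : Ordinal.omega.{0} 1 ≠ 0 := (Cardinal.isSuccLimit_omega 1).ne_bot
  refine ⟨(Ordinal.omega.{0} 1).ToType, inferInstance, inferInstance, inferInstance, ⟨fun a => ?_⟩,
    Ordinal.toTypeOrderBot h0, exists_W_bdd⟩
  obtain ⟨b, hb⟩ := exists_W_bdd fun _ => a
  exact ⟨b, hb 0⟩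

end P_W

end Pool.Agent.Helper349.BCK
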