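import Pool.Agent.Helper349.BCK.Base

set_option autoImplicit false

open Set Filter Topology

namespace Pool.Agent.Helper349.BCK

namespace P_basics

variable {W : Type} [LinearOrder W]

theorem res_le (t : Node W) (β : W) : t.res β ≤ t := by
  refine ⟨min_le_right _ _, fun α hα => ?_⟩
  have : α < β := lt_of_lt_of_le hα (min_le_left _ _)
  simp [Node.res, this]

theorem res_of_le (s t : Node W) (h : s ≤ t) : t.res s.len = s := by
  ext1
  · exact min_eq_left h.1
  · funext α
    by_cases hα : α < s.len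
    · simp [Node.res, hα, h.2 α hα]
    · simp [Node.res, hα, s.dflt α (not_lt.1 hα)]

theorem comp_of_le (s s' t : Node W) (h : s ≤ t) (h' : s' ≤ t) : s ≤ s' ∨ s' ≤ s := by
  rcases le_total s.len s'.len with hl | hl
  · exact Or.inl ⟨hl, fun α hα => (h.2 α hα).trans (h'.2 α (hα.trans_le hl)).symm⟩
  · exact Or.inr ⟨hl, fun α hα => (h'.2 α hα).trans (h.2 α (hα.trans_le hl)).symm⟩

theorem lt_iff_len (s t : Node W) : s < t ↔ s ≤ t ∧ s.len < t.len := by
  constructor
  · intro h
    refine ⟨h.le, lt_of_le_of_ne h.le.1 fun heq => ?_⟩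
    exact h.not_ge ⟨heq.ge, fun α hα => (h.le.2 α (heq ▸ hα)).symm⟩
  · rintro ⟨h1, h2⟩
    refine lt_of_le_of_ne h1 ?_
    rintro rfl
    exact lt_irrefl _ h2

theorem node_wf [WellFoundedLT W] : WellFounded (fun s t : Node W => s < t) := by
  refine Subrelation.wf (r := InvImage (· < ·) Node.len) ?_ (InvImage.wf _ wellFounded_lt)
  intro s t h
  exact ((lt_iff_len s t).1 h).2

theorem lt_snoc [SuccOrder W] [NoMaxOrder W] (t : Node W) (γ : Lab) : t < t.snoc γ := by
  rw [lt_iff_len]
  refine ⟨⟨Order.le_succ _, fun α hα => ?_⟩, Order.lt_succ _⟩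
  simp [Node.snoc, Function.update_of_ne hα.ne]

theorem snoc_le_iff [SuccOrder W] [NoMaxOrder W] (t s : Node W) (γ : Lab) :
    t.snoc γ ≤ s ↔ t < s ∧ s.val t.len = γ := by
  constructor
  · intro h
    refine ⟨(lt_snoc t γ).trans_le h, ?_⟩
    have := h.2 t.len (Order.lt_succ _)
    simp [Node.snoc] at this
    exact this.symm
  · rintro ⟨h, rfl⟩
    have hl := ((lt_iff_len t s).1 h).2
    refine ⟨Order.succ_le_of_lt hl, fun α hα => ?_⟩
    have hα' : α ≤ t.len := Order.lt_succ_iff.1 hα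
    rcases hα'.lt_or_eq with h1 | rfl
    · simp only [Node.snoc]
      rw [Function.update_of_ne h1.ne]
      exact h.le.2 α h1
    · simp [Node.snoc]

theorem le_of_lt_snoc [SuccOrder W] [NoMaxOrder W] (t s : Node W) (γ : Lab) (h : s < t.snoc γ) :
    s ≤ t := by
  have h1 := (lt_iff_len _ _).1 h
  have h2 : s.len ≤ t.len := Order.lt_succ_iff.1 h1.2
  refine ⟨h2, fun α hα => ?_⟩
  have h3 := h1.1.2 α hα
  simp only [Node.snoc] at h3
  rw [Function.update_of_ne (hα.trans_le h2).ne] at h3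
  exact h3

end P_basics

end Pool.Agent.Helper349.BCK
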