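import Pool.Agent.Helper349.BCK.Base

set_option autoImplicit false

open Set Filter Topology

namespace Pool.Agent.Helper349.BCK

namespace P_top

variable {W : Type} [LinearOrder W]

theorem e_true (x : K W) (i : Idx W) : e x i = true ↔ x ∈ U i := by
  simp only [e, decide_eq_true_eq]

theorem e_false (x : K W) (i : Idx W) : e x i = false ↔ x ∉ U i := by
  simp only [e, decide_eq_false_iff_not]

theorem e_iff {x y : K W} (h : e x = e y) (i : Idx W) : x ∈ U i ↔ y ∈ U i := by
  have := congrFun h i
  unfold e at this
  exact decide_eq_decide.mp this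

theorem mem_U_some (s s' : Node W) (g : G) (i : ℕ) :
    (K.c s g : K W) ∈ (U (Sum.inr (s', some i)) : Set (K W)) ↔ s = s' ∧ g i = true := by
  constructor
  · rintro ⟨g0, h1, h2⟩
    injection h1 with h3 h4
    exact ⟨h3, by rw [h4]; exact h2⟩
  · rintro ⟨h1, h2⟩
    exact ⟨g, by rw [h1], h2⟩

theorem e_injective : Function.Injective (e : K W → Idx W → Bool) := by
  intro x y h
  have H := fun i => e_iff h i
  rcases x with _ | ⟨s, g⟩ | s <;> rcases y with _ | ⟨s', g'⟩ | s'
  · rfl
  · exact absurd ((H (Sum.inr (s', none))).mpr (show s' = s' from rfl)) (fun h => h)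
  · exact absurd ((H (Sum.inl s')).mpr (show s' ≤ s' from le_rfl)) (fun h => h)
  · exact absurd ((H (Sum.inr (s, none))).mp (show s = s from rfl)) (fun h => h)
  · have h1 : s = s' := (H (Sum.inr (s', none))).mpr (show s' = s' from rfl)
    subst h1
    congr 1
    funext i
    have h2 := H (Sum.inr (s, some i))
    rw [mem_U_some, mem_U_some] at h2
    simp only [true_and] at h2
    exact Bool.eq_iff_iff.mpr h2
  · exact absurd ((H (Sum.inr (s, none))).mp (show s = s from rfl)) (fun h => h)
  · exact absurd ((H (Sum.inl s)).mp (show s ≤ s from le_rfl)) (fun h => h)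
  · exact absurd ((H (Sum.inr (s', none))).mpr (show s' = s' from rfl)) (fun h => h)
  · have h1 : s ≤ s' := (H (Sum.inl s')).mpr (show s' ≤ s' from le_rfl)
    have h2 : s' ≤ s := (H (Sum.inl s)).mp (show s ≤ s from le_rfl)
    rw [le_antisymm h1 h2]

theorem K_t2 : T2Space (K W) := T2Space.of_injective_continuous e_injective continuous_induced_dom

theorem nhds_basis (x : K W) (O : Set (K W)) (hO : IsOpen O) (hx : x ∈ O) :
    ∃ I0 : Finset (Idx W), ∀ y, (∀ i ∈ I0, y ∈ U i ↔ x ∈ U i) → y ∈ O := by
  obtain ⟨V, hV, rfl⟩ := isOpen_induced_iff.mp hO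
  obtain ⟨I0, u, h1, h2⟩ := isOpen_pi_iff.mp hV (e x) hx
  refine ⟨I0, fun y hy => ?_⟩
  apply h2
  intro i hi
  have h3 : e y i = e x i := by
    unfold e
    exact decide_eq_decide.mpr (hy i hi)
  rw [h3]
  exact (h1 i hi).2

theorem isClopen_U (i : Idx W) : IsClopen (U i) := by
  have h1 : (U i : Set (K W)) = e ⁻¹' ((fun f : Idx W → Bool => f i) ⁻¹' {true}) := by
    ext x
    simp only [Set.mem_preimage, Set.mem_singleton_iff, e, decide_eq_true_eq]
  rw [h1]
  exact ((isClopen_discrete {true}).preimage (continuous_apply i)).preimage continuous_induced_dom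

theorem cont_c (s : Node W) : Continuous (fun g : G => (K.c s g : K W)) := by
  refine continuous_induced_rng.mpr (continuous_pi (fun i => ?_))
  rcases i with t | ⟨s', _ | i⟩
  · by_cases hst : s < t
    · have h1 : (fun g : G => (e ∘ fun g : G => (K.c s g : K W)) g (Sum.inl t)) =
          fun g : G => decide (g (t.val s.len).1.1 ≠ g (t.val s.len).1.2) := by
        funext g
        simp only [Function.comp, e]
        rw [decide_eq_decide]
        exact ⟨fun h => h.2, fun h => ⟨hst, h⟩⟩
      rw [h1]
      have h2 : Continuous (fun p : Bool × Bool => decide (p.1 ≠ p.2)) :=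
        continuous_of_discreteTopology
      have h3 : Continuous (fun g : G => (g (t.val s.len).1.1, g (t.val s.len).1.2)) := by fun_prop
      exact h2.comp h3
    · have h1 : (fun g : G => (e ∘ fun g : G => (K.c s g : K W)) g (Sum.inl t)) =
          fun _ : G => false := by
        funext g
        rw [Function.comp, e_false]
        exact fun h => hst h.1
      rw [h1]
      exact continuous_const
  · by_cases hs : s = s'
    · have h1 : (fun g : G => (e ∘ fun g : G => (K.c s g : K W)) g (Sum.inr (s', none))) =
          fun _ : G => true := by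
        funext g
        rw [Function.comp, e_true]
        exact hs
      rw [h1]
      exact continuous_const
    · have h1 : (fun g : G => (e ∘ fun g : G => (K.c s g : K W)) g (Sum.inr (s', none))) =
          fun _ : G => false := by
        funext g
        rw [Function.comp, e_false]
        exact fun h => hs h
      rw [h1]
      exact continuous_const
  · by_cases hs : s = s'
    · have h1 : (fun g : G => (e ∘ fun g : G => (K.c s g : K W)) g (Sum.inr (s', some i))) =
          fun g : G => g i := by
        funext g
        rw [Function.comp, Bool.eq_iff_iff, e_true, mem_U_some]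
        exact ⟨fun h => h.2, fun h => ⟨hs, h⟩⟩
      rw [h1]
      exact continuous_apply i
    · have h1 : (fun g : G => (e ∘ fun g : G => (K.c s g : K W)) g (Sum.inr (s', some i))) =
          fun _ : G => false := by
        funext g
        rw [Function.comp, e_false, mem_U_some]
        exact fun h => hs h.1
      rw [h1]
      exact continuous_const

end P_top

end Pool.Agent.Helper349.BCK
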