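import Pool.Agent.Helper349.BCK.Base
import Pool.Agent.Helper349.BCK.P_top

set_option autoImplicit false

open Set Filter Topology

namespace Pool.Agent.Helper349.BCK

open P_top

namespace P_near

variable {W : Type} [LinearOrder W]

theorem near_gen (f : C(K W, ℝ)) (z : K W) (hz : ∀ s : Node W, z ∉ B s) (ε : ℝ) (hε : 0 < ε) :
    ∃ T S : Set (Node W), T.Finite ∧ S.Finite ∧ ∀ x : K W, (∀ t ∈ T, (x ∈ F t ↔ z ∈ F t)) →
      (∀ s ∈ S, x ∉ B s) → |f x - f z| < ε := by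
  have hO : IsOpen {x : K W | |f x - f z| < ε} :=
    isOpen_lt (f.continuous.sub continuous_const).abs continuous_const
  obtain ⟨I0, hI⟩ := nhds_basis z _ hO (by simpa using hε)
  refine ⟨{t | Sum.inl t ∈ I0}, {s | ∃ o, Sum.inr (s, o) ∈ I0}, ?_, ?_, ?_⟩
  · exact (I0.finite_toSet.preimage (Sum.inl_injective.injOn) : _)
  · have h1 : {s : Node W | ∃ o : Option ℕ, (Sum.inr (s, o) : Idx W) ∈ I0} ⊆
        Prod.fst '' ((Sum.inr : Node W × Option ℕ → Idx W) ⁻¹' (I0 : Set (Idx W))) := by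
      rintro s ⟨o, ho⟩
      exact ⟨(s, o), ho, rfl⟩
    exact ((I0.finite_toSet.preimage (Sum.inr_injective.injOn)).image _).subset h1
  · intro x hF hB
    apply hI x
    have hU : ∀ (s : Node W) (o : Option ℕ) (y : K W), y ∈ U (Sum.inr (s, o)) → y ∈ B s := by
      intro s o y hy
      cases o with
      | none => exact hy
      | some i =>
        obtain ⟨g, rfl, -⟩ := hy
        rfl
    rintro (t | ⟨s, o⟩) hi
    · exact hF t hi
    · constructor
      · intro h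
        exact absurd (hU s o x h) (hB s ⟨o, hi⟩)
      · intro h
        exact absurd (hU s o z h) (hz s)

theorem near_inf (f : C(K W, ℝ)) (ε : ℝ) (hε : 0 < ε) :
    ∃ T S : Set (Node W), T.Finite ∧ S.Finite ∧ ∀ x : K W, (∀ t ∈ T, x ∉ F t) →
      (∀ s ∈ S, x ∉ B s) → |f x - f K.inf| < ε := by
  obtain ⟨T, S, hT, hS, h⟩ := near_gen f (K.inf : K W) (fun s hs => hs) ε hε
  exact ⟨T, S, hT, hS, fun x h1 h2 => h x (fun t ht => ⟨fun h3 => absurd h3 (h1 t ht),
    fun h3 => h3.elim⟩) h2⟩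

theorem near_pt (f : C(K W, ℝ)) (m : Node W) (ε : ℝ) (hε : 0 < ε) :
    ∃ T S : Set (Node W), T.Finite ∧ S.Finite ∧ ∀ x : K W, (∀ t ∈ T, (x ∈ F t ↔ m ≤ t)) →
      (∀ s ∈ S, x ∉ B s) → |f x - f (K.p m)| < ε := by
  obtain ⟨T, S, hT, hS, h⟩ := near_gen f (K.p m : K W) (fun s hs => hs) ε hε
  exact ⟨T, S, hT, hS, fun x h1 h2 => h x (fun t ht => h1 t ht) h2⟩

end P_near

end Pool.Agent.Helper349.BCK
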