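import Pool.Agent.Helper349.BCK.Base
import Pool.Agent.Helper349.BCK.P_basics
import Pool.Agent.Helper349.BCK.P_near

set_option autoImplicit false

open Set Filter Topology

namespace Pool.Agent.Helper349.BCK

open P_basics P_near

namespace P_bdd

variable {W : Type} [LinearOrder W]

theorem bdd [SuccOrder W] [NoMaxOrder W] (f : C(K W, ℝ)) (ε : ℝ) (hε : 0 < ε) :
    ∃ T : Set (Node W), T.Finite ∧ (∀ t, ε ≤ |a f t| → ∃ t' ∈ T, t ≤ t') ∧
      ∀ t, ¬ Reg ε t f → ∃ t' ∈ T, t ≤ t' := by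
  obtain ⟨T0, S0, hT, hS, h⟩ := near_inf f (ε / 2) (half_pos hε)
  have key : ∀ t, (¬ ∃ t' ∈ T0 ∪ S0, t ≤ t') → |a f t| < ε / 2 := by
    intro t ht
    push Not at ht
    unfold a
    refine h (K.p t) (fun t' ht' hm => ?_) (fun s _ hm => hm)
    exact ht t' (Or.inl ht') hm
  refine ⟨T0 ∪ S0, hT.union hS, ?_, ?_⟩
  · intro t ht
    by_contra hc
    have := key t hc
    linarith
  · intro t ht
    by_contra hc
    apply ht
    have hs : ∀ γ, |a f (t.snoc γ)| < ε / 2 := by
      intro γ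
      apply key
      rintro ⟨t', ht', hle⟩
      exact hc ⟨t', ht', (lt_snoc t γ).le.trans hle⟩
    have ht0 := key t hc
    have hu : ∀ x, |u f t x| < ε / 2 := by
      intro x
      unfold u
      refine h (K.c t x) (fun t' ht' hm => ?_) (fun s hs hm => ?_)
      · exact hc ⟨t', Or.inl ht', ((mem_F_c t' t x).1 hm).1.le⟩
      · exact hc ⟨s, Or.inr hs, ((mem_B_c s t x).1 hm).le⟩
    refine ⟨lab0, ?_, ?_, ?_⟩
    · intro x
      have h1 := abs_lt.1 (hu x)
      have h2 := abs_lt.1 ht0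
      rw [abs_le]
      split_ifs <;> constructor <;> linarith [h1.1, h1.2, h2.1, h2.2]
    · have h1 := abs_lt.1 (hs lab0)
      have h2 := abs_lt.1 ht0
      rw [abs_le]
      constructor <;> linarith [h1.1, h1.2, h2.1, h2.2]
    · intro γ' _
      linarith [hs γ']

theorem succ_fin [SuccOrder W] [NoMaxOrder W] (f : C(K W, ℝ)) (t : Node W) (ε : ℝ) (hε : 0 < ε) :
    {γ : Lab | ε ≤ |a f (t.snoc γ)|}.Finite := by
  obtain ⟨T0, S0, hT, hS, h⟩ := near_inf f ε hε
  refine (hT.image fun t' => t'.val t.len).subset ?_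
  intro γ hγ
  by_contra hc
  have : |a f (t.snoc γ)| < ε := by
    unfold a
    refine h (K.p (t.snoc γ)) (fun t' ht' hm => ?_) (fun s _ hm => hm)
    have h1 : t.snoc γ ≤ t' := hm
    exact hc ⟨t', ht', ((snoc_le_iff t t' γ).1 h1).2⟩
  exact absurd hγ (not_le.2 this)

end P_bdd

end Pool.Agent.Helper349.BCK
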