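import Pool.Agent.Helper349.BCK.Base

set_option autoImplicit false

open Set Filter Topology

namespace Pool.Agent.Helper349.BCK

namespace P_closed

variable {W : Type} [LinearOrder W]

theorem rg_closed [SuccOrder W] [NoMaxOrder W] (ε : ℝ) (t : Node W) (γ : Lab) :
    IsClosed[ptop] {f : C(K W, ℝ) | Rg ε t γ f} := by
  classical
  refine isClosed_induced_iff.2 ⟨{h : K W → ℝ |
    (∀ x : G, |(h (K.c t x) - h K.inf) -
      (if x ∈ cc γ then (h (K.p t) - h K.inf) else 0)| ≤ ε) ∧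
    |(h (K.p (t.snoc γ)) - h K.inf) - (h (K.p t) - h K.inf)| ≤ ε ∧
    ∀ γ', γ' ≠ γ → |h (K.p (t.snoc γ')) - h K.inf| ≤ ε}, ?_, ?_⟩
  · have e1 : {h : K W → ℝ |
      (∀ x : G, |(h (K.c t x) - h K.inf) -
        (if x ∈ cc γ then (h (K.p t) - h K.inf) else 0)| ≤ ε) ∧
      |(h (K.p (t.snoc γ)) - h K.inf) - (h (K.p t) - h K.inf)| ≤ ε ∧
      ∀ γ', γ' ≠ γ → |h (K.p (t.snoc γ')) - h K.inf| ≤ ε} =
      (⋂ x : G, {h : K W → ℝ | |(h (K.c t x) - h K.inf) -
        (if x ∈ cc γ then (h (K.p t) - h K.inf) else 0)| ≤ ε}) ∩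
      ({h | |(h (K.p (t.snoc γ)) - h K.inf) - (h (K.p t) - h K.inf)| ≤ ε} ∩
      ⋂ γ', ⋂ (_ : γ' ≠ γ), {h | |h (K.p (t.snoc γ')) - h K.inf| ≤ ε}) := by
      ext h
      simp
    rw [e1]
    refine IsClosed.inter ?_ (IsClosed.inter ?_ ?_)
    · apply isClosed_iInter
      intro x
      by_cases hx : x ∈ cc γ
      · simp only [hx, if_true]
        apply isClosed_le _ continuous_const
        fun_prop
      · simp only [hx, if_false]
        apply isClosed_le _ continuous_const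
        fun_prop
    · apply isClosed_le _ continuous_const
      fun_prop
    · apply isClosed_iInter
      intro γ'
      apply isClosed_iInter
      intro _
      apply isClosed_le _ continuous_const
      fun_prop
  · ext f
    simp only [Set.mem_preimage, Set.mem_ofPred_eq, Rg, u, a]

theorem wtop_le_ptop [CompactSpace (K W)] : (wtop : TopologicalSpace C(K W, ℝ)) ≤ ptop := by
  apply continuous_iff_le_induced.1
  refine @continuous_pi _ _ _ wtop _ _ (fun x => ?_)
  have h1 : @Continuous _ _ wtop _ (fun f : C(K W, ℝ) => fun φ : C(K W, ℝ) →L[ℝ] ℝ => φ f) :=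
    continuous_induced_dom
  have h2 : Continuous (fun ψ : (C(K W, ℝ) →L[ℝ] ℝ) → ℝ => ψ (ContinuousMap.evalCLM ℝ x)) :=
    continuous_apply _
  exact @Continuous.comp _ _ _ wtop _ _ _ _ h2 h1

end P_closed

end Pool.Agent.Helper349.BCK
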