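import Pool.Agent.Helper349.BCK.Base
import Pool.Agent.Helper349.BCK.P_basics

set_option autoImplicit false

open Set Filter Topology

namespace Pool.Agent.Helper349.BCK

open P_basics

namespace P_meet

variable {W : Type} [LinearOrder W]

theorem meet_le [WellFoundedLT W] (m t : Node W) (h : ¬ m ≤ t) :
    ∃ r, r < m ∧ r ≤ t ∧ ∀ s, s ≤ m → s ≤ t → s ≤ r := by
  classical
  have hex : ∃ b, b < m.len ∧ (t.len ≤ b ∨ t.val b ≠ m.val b) := by
    by_contra hcon
    push Not at hcon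
    apply h
    rw [Node.le_def]
    refine ⟨?_, fun α hα => ((hcon α hα).2).symm⟩
    by_contra hlt
    rw [not_le] at hlt
    exact lt_irrefl _ (hcon t.len hlt).1
  obtain ⟨b, ⟨hb1, hb2⟩, hmin⟩ :=
    (wellFounded_lt (α := W)).has_min {b | b < m.len ∧ (t.len ≤ b ∨ t.val b ≠ m.val b)} hex
  have hbel : ∀ α, α < b → α < t.len ∧ t.val α = m.val α := by
    intro α hα
    have h1 : α < m.len := hα.trans hb1
    by_contra hcon
    apply hmin α _ hα
    refine ⟨h1, ?_⟩
    by_contra hc2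
    push Not at hc2
    exact hcon hc2
  have hbt : b ≤ t.len := by
    by_contra hlt
    rw [not_le] at hlt
    exact lt_irrefl _ (hbel _ hlt).1
  have hlen : (m.res b).len = b := min_eq_left hb1.le
  refine ⟨m.res b, ?_, ?_, ?_⟩
  · rw [lt_iff_len]
    exact ⟨res_le m b, by rw [hlen]; exact hb1⟩
  · rw [Node.le_def, hlen]
    refine ⟨hbt, fun α hα => ?_⟩
    have : (m.res b).val α = m.val α := by simp [Node.res, hα]
    rw [this]
    exact (hbel α hα).2.symm
  · intro s hsm hst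
    rw [Node.le_def] at hsm hst
    have hsb : s.len ≤ b := by
      by_contra hlt
      rw [not_le] at hlt
      rcases hb2 with h' | h'
      · exact absurd (hlt.trans_le hst.1) (not_lt.2 h')
      · exact h' ((hst.2 b hlt).symm.trans (hsm.2 b hlt))
    rw [Node.le_def, hlen]
    refine ⟨hsb, fun α hα => ?_⟩
    have : (m.res b).val α = m.val α := by simp [Node.res, hα.trans_le hsb]
    rw [this]
    exact hsm.2 α hα

theorem meet_snoc [WellFoundedLT W] [SuccOrder W] [NoMaxOrder W] (r s t : Node W) (hrs : r ≤ s)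
    (hrt : r ≤ t) (h1 : ¬ s ≤ t) (h2 : ¬ t ≤ s) :
    ∃ q γ γ', r ≤ q ∧ q < s ∧ q < t ∧ γ ≠ γ' ∧ q.snoc γ ≤ s ∧ q.snoc γ' ≤ t := by
  obtain ⟨q, hqs, hqt, hq⟩ := meet_le s t h1
  have hqt' : q < t := by
    refine lt_of_le_of_ne hqt ?_
    rintro rfl
    exact h2 hqs.le
  refine ⟨q, s.val q.len, t.val q.len, hq r hrs hrt, hqs, hqt', ?_, ?_, ?_⟩
  · intro heq
    have ha : q.snoc (s.val q.len) ≤ s := (snoc_le_iff _ _ _).2 ⟨hqs, rfl⟩
    have hb : q.snoc (s.val q.len) ≤ t := (snoc_le_iff _ _ _).2 ⟨hqt', heq.symm⟩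
    exact absurd (lt_snoc q (s.val q.len)) (not_lt_of_ge (hq _ ha hb))
  · exact (snoc_le_iff _ _ _).2 ⟨hqs, rfl⟩
  · exact (snoc_le_iff _ _ _).2 ⟨hqt', rfl⟩

theorem max_below [OrderBot W] (m : Node W) (hm : Node.root ≠ m) (R : Set (Node W)) (hR : R.Finite)
    (h : ∀ r ∈ R, r < m) : ∃ r0, r0 < m ∧ ∀ r ∈ R, r ≤ r0 := by
  have hroot : (Node.root : Node W) < m := by
    refine lt_of_le_of_ne ?_ hm
    rw [Node.le_def]
    exact ⟨bot_le, fun α hα => absurd hα (not_lt_bot)⟩
  induction R, hR using Set.Finite.induction_on with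
  | empty => exact ⟨Node.root, hroot, fun r hr => absurd hr (Set.notMem_empty r)⟩
  | @insert a S _ _ ih =>
    obtain ⟨r0, hr0, hS⟩ := ih (fun r hr => h r (Set.mem_insert_of_mem _ hr))
    have ha : a < m := h a (Set.mem_insert _ _)
    rcases comp_of_le a r0 m ha.le hr0.le with hc | hc
    · refine ⟨r0, hr0, fun r hr => ?_⟩
      rcases hr with rfl | hr
      · exact hc
      · exact hS r hr
    · refine ⟨a, ha, fun r hr => ?_⟩
      rcases hr with rfl | hr
      · exact le_rfl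
      · exact (hS r hr).trans hc

end P_meet

end Pool.Agent.Helper349.BCK
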