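import Pool.Agent.Helper349.BCK.Base
import Pool.Agent.Helper349.BCK.P_basics
import Pool.Agent.Helper349.BCK.P_meet
import Pool.Agent.Helper349.BCK.P_top

set_option autoImplicit false

open Set Filter Topology

namespace Pool.Agent.Helper349.BCK

open P_basics P_meet P_top

namespace P_compact

variable {W : Type} [LinearOrder W]

theorem K_compact [WellFoundedLT W] : CompactSpace (K W) := by
  classical
  rw [← isCompact_univ_iff, isCompact_iff_ultrafilter_le_nhds]
  intro UU _
  suffices h : ∃ x : K W, ∀ i : Idx W, ∀ᶠ y in (UU : Filter (K W)), (y ∈ U i ↔ x ∈ U i) by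
    obtain ⟨x, hx⟩ := h
    refine ⟨x, mem_univ x, ?_⟩
    have hnhds : 𝓝 x = comap e (𝓝 (e x)) := nhds_induced _ _
    rw [hnhds, ← map_le_iff_le_comap]
    show Tendsto e (UU : Filter (K W)) (𝓝 (e x))
    rw [tendsto_pi_nhds]
    intro i
    rw [nhds_discrete, tendsto_pure]
    filter_upwards [hx i] with y hy
    simp only [e, hy]
  have hdec : ∀ S : Set (K W), S ∉ UU → ∀ᶠ y in (UU : Filter (K W)), y ∉ S := by
    intro S hS
    exact Ultrafilter.compl_mem_iff_notMem.2 hS
  have hPB : ∀ (s : Node W) (i : ℕ) (y : K W), y ∈ U (.inr (s, some i)) → y ∈ B s := by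
    rintro s i y ⟨g, rfl, -⟩
    exact (mem_B_c s s g).2 rfl
  by_cases hB : ∃ s : Node W, B s ∈ UU
  · obtain ⟨s, hs⟩ := hB
    let g : G := fun i => decide (U (.inr (s, some i)) ∈ UU)
    have hP : ∀ i : ℕ, ∀ᶠ y in (UU : Filter (K W)), (y ∈ U (.inr (s, some i)) ↔ g i = true) := by
      intro i
      by_cases h : U (.inr (s, some i)) ∈ UU
      · filter_upwards [h] with y hy
        simp only [g, h, decide_true, iff_true]
        exact hy
      · filter_upwards [hdec _ h] with y hy
        simp only [g, h, decide_false]
        exact ⟨fun h' => absurd h' hy, fun h' => absurd h' (by simp)⟩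
    have hmemP : ∀ (h : G) (i : ℕ), (K.c s h : K W) ∈ U (.inr (s, some i)) ↔ h i = true := by
      intro h i
      constructor
      · rintro ⟨g', hg', hi⟩
        rw [K.c.injEq] at hg'
        rw [hg'.2]; exact hi
      · intro hi
        exact ⟨h, rfl, hi⟩
    have hsh : ∀ y : K W, y ∈ B s → ∃ h : G, y = K.c s h := by
      intro y hy
      cases y with
      | inf => exact absurd hy id
      | c s' h => exact ⟨h, by rw [(mem_B_c s s' h).1 hy]⟩
      | p s' => exact absurd hy id
    refine ⟨K.c s g, fun i => ?_⟩
    rcases i with t | ⟨s', _ | k⟩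
    · filter_upwards [hs, hP (t.val s.len).1.1, hP (t.val s.len).1.2] with y hy h1 h2
      obtain ⟨h, rfl⟩ := hsh y hy
      rw [hmemP] at h1 h2
      show s < t ∧ h ∈ cc (t.val s.len) ↔ s < t ∧ g ∈ cc (t.val s.len)
      have e1 : h (t.val s.len).1.1 = g (t.val s.len).1.1 := Bool.eq_iff_iff.2 h1
      have e2 : h (t.val s.len).1.2 = g (t.val s.len).1.2 := Bool.eq_iff_iff.2 h2
      have e3 : (h ∈ cc (t.val s.len) ↔ g ∈ cc (t.val s.len)) := by
        show (h (t.val s.len).1.1 ≠ h (t.val s.len).1.2) ↔
          (g (t.val s.len).1.1 ≠ g (t.val s.len).1.2)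
        rw [e1, e2]
      rw [e3]
    · filter_upwards [hs] with y hy
      obtain ⟨h, rfl⟩ := hsh y hy
      exact Iff.rfl
    · by_cases hss : s' = s
      · subst hss
        filter_upwards [hP k] with y hy
        rw [hy, hmemP]
      · filter_upwards [hs] with y hy
        obtain ⟨h, rfl⟩ := hsh y hy
        constructor
        · intro h'
          exact absurd ((mem_B_c s' s h).1 (hPB s' k _ h')).symm hss
        · intro h'
          exact absurd ((mem_B_c s' s g).1 (hPB s' k _ h')).symm hss
  · push Not at hB
    have hBn : ∀ s : Node W, ∀ᶠ y in (UU : Filter (K W)), y ∉ B s := fun s => hdec _ (hB s)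
    by_cases hE : ∃ t : Node W, F t ∈ UU
    · obtain ⟨m, hm, hmin⟩ := (node_wf (W := W)).has_min {t | F t ∈ UU} hE
      refine ⟨K.p m, fun i => ?_⟩
      rcases i with t | ⟨s', _ | k⟩
      · by_cases hmt : m ≤ t
        · filter_upwards [hm] with y hy
          refine ⟨fun _ => hmt, fun _ => ?_⟩
          cases y with
          | inf => exact absurd hy id
          | c s h =>
            rw [mem_F_c] at hy
            show s < t ∧ h ∈ cc (t.val s.len)
            refine ⟨hy.1.trans_le hmt, ?_⟩
            have := hmt.2 s.len ((lt_iff_len s m).1 hy.1).2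
            rw [← this]
            exact hy.2
          | p s => exact le_trans (α := Node W) hy hmt
        · have hFt : F t ∉ UU := by
            intro hFt
            obtain ⟨r, hrm, hrt, hr⟩ := meet_le m t hmt
            have hsub : F t ∩ F m ⊆ F r ∪ B r := by
              rintro y ⟨hy1, hy2⟩
              cases y with
              | inf => exact absurd hy1 id
              | c s h =>
                rw [mem_F_c] at hy1 hy2
                have hsr : s ≤ r := hr s hy2.1.le hy1.1.le
                rcases hsr.lt_or_eq with hlt | heq
                · left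
                  rw [mem_F_c]
                  refine ⟨hlt, ?_⟩
                  have := hrm.le.2 s.len ((lt_iff_len s r).1 hlt).2
                  rw [this]
                  exact hy2.2
                · right
                  exact (mem_B_c r s h).2 heq
              | p s =>
                left
                exact hr s hy2 hy1
            have hmem : F r ∪ B r ∈ UU :=
              Filter.mem_of_superset (Filter.inter_mem hFt hm) hsub
            rcases Ultrafilter.union_mem_iff.1 hmem with h1 | h1
            · exact hmin r h1 hrm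
            · exact hB r h1
          filter_upwards [hdec _ hFt] with y hy
          exact ⟨fun h => absurd h hy, fun h => absurd h hmt⟩
      · filter_upwards [hBn s'] with y hy
        exact ⟨fun h => absurd h hy, fun h => absurd h id⟩
      · filter_upwards [hBn s'] with y hy
        exact ⟨fun h => absurd (hPB s' k _ h) hy, fun h => absurd (hPB s' k _ h) id⟩
    · push Not at hE
      refine ⟨K.inf, fun i => ?_⟩
      rcases i with t | ⟨s', _ | k⟩
      · filter_upwards [hdec _ (hE t)] with y hy
        exact ⟨fun h => absurd h hy, fun h => absurd h id⟩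
      · filter_upwards [hBn s'] with y hy
        exact ⟨fun h => absurd h hy, fun h => absurd h id⟩
      · filter_upwards [hBn s'] with y hy
        exact ⟨fun h => absurd (hPB s' k _ h) hy, fun h => absurd (hPB s' k _ h) id⟩

end P_compact

end Pool.Agent.Helper349.BCK
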