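import Pool.Agent.Helper349.BCK.Base
import Pool.Agent.Helper349.BCK.P_basics
import Pool.Agent.Helper349.BCK.P_meet
import Pool.Agent.Helper349.BCK.P_near

set_option autoImplicit false

open Set Filter Topology

namespace Pool.Agent.Helper349.BCK

open P_basics P_meet P_near

namespace P_nearlim

variable {W : Type} [LinearOrder W]

theorem near_lim [WellFoundedLT W] [SuccOrder W] [NoMaxOrder W] [OrderBot W] (f : C(K W, ℝ))
    (m : Node W) (hm : Node.root ≠ m) (ε : ℝ) (hε : 0 < ε) :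
    ∃ r, r < m ∧ ∀ t, r < t → t < m →
      |a f t - a f m| < ε ∧
      (∀ x ∈ cc (m.val t.len), |u f t x - a f m| < ε) ∧
      (∀ x, x ∉ cc (m.val t.len) → |u f t x| < ε) ∧
      ∀ γ, γ ≠ m.val t.len → |a f (t.snoc γ)| < ε := by
  obtain ⟨T1, S1, hT1, hS1, h1⟩ := near_inf f ε hε
  obtain ⟨T2, S2, hT2, hS2, h2⟩ := near_pt f m ε hε
  have hroot : Node.root < m := by
    refine lt_of_le_of_ne ⟨bot_le, fun α hα => ?_⟩ hm
    exact absurd hα (not_lt.2 bot_le)
  have hex : ∀ t' : Node W, ∃ r, r < m ∧ (¬ m ≤ t' → ∀ s, s ≤ m → s ≤ t' → s ≤ r) := by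
    intro t'
    by_cases h : m ≤ t'
    · exact ⟨Node.root, hroot, fun h' => absurd h h'⟩
    · obtain ⟨r, hr, _, hr2⟩ := meet_le m t' h
      exact ⟨r, hr, fun _ => hr2⟩
  choose ρ hρ1 hρ2 using hex
  obtain ⟨r0, hr0, hr1⟩ := max_below m hm ((ρ '' (T1 ∪ T2)) ∪ {s | s ∈ S1 ∪ S2 ∧ s < m})
    (((hT1.union hT2).image ρ).union ((hS1.union hS2).subset fun s hs => hs.1)) (by
      rintro r (⟨t', _, rfl⟩ | ⟨_, hr⟩)
      · exact hρ1 t'
      · exact hr)
  refine ⟨r0, hr0, fun t hrt htm => ?_⟩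
  have hA : ∀ t' ∈ T1 ∪ T2, t ≤ t' → m ≤ t' := by
    intro t' ht' htt'
    by_contra hmt
    have h3 : t ≤ ρ t' := hρ2 t' hmt t htm.le htt'
    have h4 : ρ t' ≤ r0 := hr1 _ (Or.inl ⟨t', ht', rfl⟩)
    exact absurd (lt_of_lt_of_le hrt (h3.trans h4)) (lt_irrefl _)
  have hB : t ∉ S1 ∪ S2 := by
    intro h
    exact absurd (lt_of_lt_of_le hrt (hr1 t (Or.inr ⟨h, htm⟩))) (lt_irrefl _)
  have hlen : t.len < m.len := ((lt_iff_len t m).1 htm).2
  have hval : ∀ t', m ≤ t' → t'.val t.len = m.val t.len := fun t' h =>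
    (((Node.le_def m t').1 h).2 _ hlen).symm
  refine ⟨?_, ?_, ?_, ?_⟩
  · have h3 := h2 (K.p t) (fun t' ht' => ⟨fun h => hA t' (Or.inr ht') h, fun h => htm.le.trans h⟩)
      (fun s _ h => h)
    have e : a f t - a f m = f (K.p t) - f (K.p m) := by
      unfold a
      ring
    rw [e]
    exact h3
  · intro x hx
    have h3 := h2 (K.c t x) (fun t' ht' => ?_) (fun s hs h => ?_)
    · have e : u f t x - a f m = f (K.c t x) - f (K.p m) := by
        unfold a u
        ring
      rw [e]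
      exact h3
    · rw [mem_F_c]
      constructor
      · intro h
        exact hA t' (Or.inr ht') h.1.le
      · intro h
        refine ⟨lt_of_lt_of_le htm h, ?_⟩
        rw [hval t' h]
        exact hx
    · rw [mem_B_c] at h
      exact hB (Or.inr (h ▸ hs))
  · intro x hx
    refine h1 (K.c t x) (fun t' ht' h => ?_) (fun s hs h => ?_)
    · rw [mem_F_c] at h
      have h3 := hA t' (Or.inl ht') h.1.le
      rw [hval t' h3] at h
      exact hx h.2
    · rw [mem_B_c] at h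
      exact hB (Or.inl (h ▸ hs))
  · intro γ hγ
    refine h1 (K.p (t.snoc γ)) (fun t' ht' h => ?_) (fun s hs h => h)
    rw [mem_F_p, snoc_le_iff] at h
    have h3 := hA t' (Or.inl ht') h.1.le
    exact hγ (h.2.symm.trans (hval t' h3))

end P_nearlim

end Pool.Agent.Helper349.BCK
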