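import Pool.Agent.Helper349.BCK.Base
import Pool.Agent.Helper349.BCK.P_basics
import Pool.Agent.Helper349.BCK.P_meet

set_option autoImplicit false

open Set Filter Topology

namespace Pool.Agent.Helper349.BCK

open P_basics P_meet

namespace P_path

variable {W : Type} [LinearOrder W]

theorem snoc_big [WellFoundedLT W] [SuccOrder W] [NoMaxOrder W] (h : C(K W, ℝ))
    (I : Set (Node W)) (ε : ℝ) (hε : 0 < ε) (hG : Good h I ε) (r q s : Node W) (γ : Lab)
    (hrq : r ≤ q) (hqs : q.snoc γ ≤ s) (hs : ∀ x, r ≤ x → x < s → x ∉ I)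
    (hs' : 10 * ε < |a h s|) : ε < |a h (q.snoc γ)| := by
  have h1 : |a h (q.snoc γ) - a h s| ≤ ε :=
    hG.drift (q.snoc γ) s hqs
      (fun x hx hxs => hs x (hrq.trans ((lt_snoc q γ).le.trans hx)) hxs) hs'
  have h2 := abs_sub_abs_le_abs_sub (a h s) (a h (q.snoc γ))
  rw [abs_sub_comm] at h2
  linarith

theorem unique_path [WellFoundedLT W] [SuccOrder W] [NoMaxOrder W] (h : C(K W, ℝ))
    (I : Set (Node W)) (ε : ℝ) (hε : 0 < ε) (hG : Good h I ε) (r s t : Node W) (hrs : r ≤ s)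
    (hrt : r ≤ t) (hs : ∀ x, r ≤ x → x < s → x ∉ I) (ht : ∀ x, r ≤ x → x < t → x ∉ I)
    (hs' : 10 * ε < |a h s|) (ht' : 10 * ε < |a h t|) : s ≤ t ∨ t ≤ s := by
  by_contra hcon
  rw [not_or] at hcon
  obtain ⟨q, γ, γ', hrq, hqs, hqt, hne, h1, h2⟩ := meet_snoc r s t hrs hrt hcon.1 hcon.2
  have b1 := snoc_big h I ε hε hG r q s γ hrq h1 hs hs'
  have b2 := snoc_big h I ε hε hG r q t γ' hrq h2 ht ht'
  obtain ⟨γ₀, -, -, h3⟩ := hG.reg q (hs q hrq hqs)
  by_cases hγ : γ = γ₀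
  · have := h3 γ' (fun h4 => hne (hγ.trans h4.symm))
    linarith
  · have := h3 γ hγ
    linarith

theorem dir_of_lt [WellFoundedLT W] [SuccOrder W] [NoMaxOrder W] (h : C(K W, ℝ))
    (I : Set (Node W)) (ε : ℝ) (hε : 0 < ε) (hG : Good h I ε) (r t : Node W) (hrt : r < t)
    (ht : ∀ x, r ≤ x → x < t → x ∉ I) (ht' : 10 * ε < |a h t|) :
    Rg ε r (t.val r.len) h := by
  have h1 : r.snoc (t.val r.len) ≤ t := (snoc_le_iff r t _).2 ⟨hrt, rfl⟩
  have b1 := snoc_big h I ε hε hG r r t _ le_rfl h1 ht ht'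
  obtain ⟨γ₀, hR⟩ := hG.reg r (ht r le_rfl hrt)
  have : t.val r.len = γ₀ := by
    by_contra hne
    have := hR.2.2 _ hne
    linarith
  rw [this]
  exact hR

end P_path

end Pool.Agent.Helper349.BCK
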