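import Pool.Agent.Helper349.BCK.Base
import Pool.Agent.Helper349.BCK.P_basics
import Pool.Agent.Helper349.BCK.P_bdd
import Pool.Agent.Helper349.BCK.P_nearlim
import Pool.Agent.Helper349.BCK.P_path

set_option autoImplicit false

open Set Filter Topology

namespace Pool.Agent.Helper349.BCK

open P_basics P_bdd P_nearlim P_path

namespace P_end

variable {W : Type} [LinearOrder W]

theorem exists_end_aux (Z : Set (Node W)) (r : Node W) (hr : r ∈ Z)
    (hZ : ∀ s ∈ Z, ∀ t ∈ Z, s ≤ t ∨ t ≤ s) (T : Set (Node W)) (hT : T.Finite)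
    (h : ∀ t ∈ T, ∃ z ∈ Z, ¬ z ≤ t) : ∃ z ∈ Z, ∀ t ∈ T, ¬ z ≤ t := by
  induction T, hT using Set.Finite.induction_on with
  | empty => exact ⟨r, hr, fun t ht => absurd ht (Set.notMem_empty t)⟩
  | insert ha hfin ih =>
    rename_i b T'
    obtain ⟨z1, hz1, h1⟩ := ih (fun t ht => h t (Set.mem_insert_of_mem _ ht))
    obtain ⟨z2, hz2, h2⟩ := h b (Set.mem_insert _ _)
    rcases hZ z1 hz1 z2 hz2 with hle | hle
    · refine ⟨z2, hz2, ?_⟩
      intro t ht
      rcases Set.mem_insert_iff.mp ht with rfl | ht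
      · exact h2
      · exact fun hh => h1 t ht (hle.trans hh)
    · refine ⟨z1, hz1, ?_⟩
      intro t ht
      rcases Set.mem_insert_iff.mp ht with rfl | ht
      · exact fun hh => h2 (hle.trans hh)
      · exact h1 t ht

theorem exists_end [WellFoundedLT W] [SuccOrder W] [NoMaxOrder W] [OrderBot W] (h : C(K W, ℝ))
    (I : Set (Node W)) (ε : ℝ) (hε : 0 < ε) (hG : Good h I ε) (r : Node W)
    (hr : 14 * ε < |a h r|) :
    ∃ t ∈ I, r ≤ t ∧ (∀ x, r ≤ x → x < t → x ∉ I) ∧ 10 * ε < |a h t| := by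
  classical
  let Z : Set (Node W) := {t | r ≤ t ∧ (∀ x, r ≤ x → x < t → x ∉ I) ∧ 10 * ε < |a h t|}
  have hrZ : r ∈ Z := by
    refine ⟨le_rfl, fun x h1 h2 => ?_, by linarith⟩
    exact absurd (lt_of_le_of_lt h1 h2) (lt_irrefl _)
  have h13 : ∀ t ∈ Z, 13 * ε < |a h t| := by
    intro t ht
    have h1 := hG.drift r t ht.1 ht.2.1 ht.2.2
    have h2 := abs_sub_abs_le_abs_sub (a h r) (a h t)
    linarith
  have hchain : ∀ s ∈ Z, ∀ t ∈ Z, s ≤ t ∨ t ≤ s := by
    intro s hs t ht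
    exact unique_path h I ε hε hG r s t hs.1 ht.1 hs.2.1 ht.2.1 hs.2.2 ht.2.2
  obtain ⟨T, hT, hT1, _⟩ := bdd h ε hε
  have hUB : ∃ m, ∀ z ∈ Z, z ≤ m := by
    by_contra hcon
    push Not at hcon
    obtain ⟨z, hz, hz2⟩ := exists_end_aux Z r hrZ hchain T hT (fun t _ => hcon t)
    obtain ⟨t', ht', hle⟩ := hT1 z (by linarith [hz.2.2])
    exact hz2 t' ht' hle
  obtain ⟨m0, hm0, hmin⟩ := node_wf.has_min {m : Node W | ∀ z ∈ Z, z ≤ m} hUB
  have hmemZ : m0 ∈ Z := by
    by_contra hnot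
    have hlt : ∀ t ∈ Z, t < m0 := by
      intro t ht
      refine lt_of_le_of_ne (hm0 t ht) ?_
      intro he
      exact hnot (he ▸ ht)
    have hroot : Node.root ≠ m0 := by
      intro he
      have h1 : r < m0 := hlt r hrZ
      have h2 : (Node.root : Node W) ≤ r := by
        rw [Node.le_def]
        refine ⟨bot_le, ?_⟩
        intro α hα
        exact absurd hα (not_lt_bot)
      rw [he] at h2
      exact absurd (lt_of_lt_of_le h1 h2) (lt_irrefl _)
    obtain ⟨r1, hr1, hnear⟩ := near_lim h m0 hroot ε hε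
    have hr1n : ¬ ∀ z ∈ Z, z ≤ r1 := fun hh => hmin r1 hh hr1
    push Not at hr1n
    obtain ⟨t0, ht0, ht0n⟩ := hr1n
    have hr1t : r1 < t0 := by
      rcases comp_of_le t0 r1 m0 (hm0 t0 ht0) hr1.le with h1 | h1
      · exact absurd h1 ht0n
      · refine lt_of_le_of_ne h1 ?_
        intro he
        exact ht0n (he ▸ le_rfl)
    have h1 := (hnear t0 hr1t (hlt t0 ht0)).1
    have h2 := h13 t0 ht0
    have h3 := abs_sub_abs_le_abs_sub (a h t0) (a h m0)
    refine hnot ⟨hm0 r hrZ, ?_, by linarith⟩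
    intro x hx1 hx2
    have hxn : ¬ ∀ z ∈ Z, z ≤ x := fun hh => hmin x hh hx2
    push Not at hxn
    obtain ⟨t1, ht1, ht1n⟩ := hxn
    have hxt : x < t1 := by
      rcases comp_of_le t1 x m0 (hm0 t1 ht1) hx2.le with h1 | h1
      · exact absurd h1 ht1n
      · refine lt_of_le_of_ne h1 ?_
        intro he
        exact ht1n (he ▸ le_rfl)
    exact ht1.2.1 x hx1 hxt
  by_cases hI : m0 ∈ I
  · exact ⟨m0, hI, hmemZ⟩
  · exfalso
    obtain ⟨γ, hγ⟩ := hG.reg m0 hI
    have h1 := hγ.2.1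
    have h2 := h13 m0 hmemZ
    have h3 := abs_sub_abs_le_abs_sub (a h m0) (a h (m0.snoc γ))
    rw [abs_sub_comm] at h1
    have hsn : m0.snoc γ ∈ Z := by
      refine ⟨hmemZ.1.trans (lt_snoc m0 γ).le, ?_, by linarith⟩
      intro x hx1 hx2
      have hx3 := le_of_lt_snoc m0 x γ hx2
      rcases lt_or_eq_of_le hx3 with hx4 | hx4
      · exact hmemZ.2.1 x hx1 hx4
      · rw [hx4]; exact hI
    exact absurd (lt_of_lt_of_le (lt_snoc m0 γ) (hm0 _ hsn)) (lt_irrefl _)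

end P_end

end Pool.Agent.Helper349.BCK
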