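import Pool.Agent.Helper349.BCK.Base
import Pool.Agent.Helper349.BCK.P_basics
import Pool.Agent.Helper349.BCK.P_end
import Pool.Agent.Helper349.BCK.P_path

set_option autoImplicit false

open Set Filter Topology

namespace Pool.Agent.Helper349.BCK

open P_basics P_end P_path

namespace P_compare

variable {W : Type} [LinearOrder W]

theorem root_le' [OrderBot W] (s : Node W) : Node.root ≤ s :=
  ⟨bot_le, fun α hα => absurd hα (not_lt_bot)⟩

/-- main claim, one-sided form -/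
theorem claimA [WellFoundedLT W] [SuccOrder W] [NoMaxOrder W] [OrderBot W] (f g : C(K W, ℝ))
    (I : Set (Node W)) (hI : I.Finite) (ε : ℝ) (hε : 0 < ε) (hf : Good f I ε) (hg : Good g I ε)
    (h1 : ∀ t ∈ I, |a f t - a g t| ≤ ε ∧ (∀ x, |u f t x - u g t x| ≤ ε) ∧
      ∀ γ, |a f (t.snoc γ) - a g (t.snoc γ)| ≤ ε)
    (h2 : |a f Node.root - a g Node.root| ≤ ε) (s : Node W) (hs : 16 * ε < |a f s|) :
    |a f s - a g s| ≤ 3 * ε ∧ (s ∉ I → ∀ x, |u f s x - u g s x| ≤ 5 * ε) := by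
  -- step 1
  obtain ⟨r0, hr0s, hr0I, hr0⟩ : ∃ r0 : Node W, r0 ≤ s ∧ (∀ x, r0 ≤ x → x < s → x ∉ I) ∧
      |a f r0 - a g r0| ≤ ε := by
    by_cases hne : {t | t ∈ I ∧ t < s}.Nonempty
    · have hfin : {t | t ∈ I ∧ t < s}.Finite := hI.subset (fun t ht => ht.1)
      obtain ⟨t0, ht0⟩ := hfin.exists_maximal hne
      have ht0I : t0 ∈ I := ht0.1.1
      have ht0s : t0 < s := ht0.1.2
      refine ⟨t0.snoc (s.val t0.len), (snoc_le_iff t0 s _).2 ⟨ht0s, rfl⟩, ?_, (h1 t0 ht0I).2.2 _⟩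
      intro x hx hxs hxI
      have h3 : t0 < x := (lt_snoc t0 _).trans_le hx
      have h4 := ht0.2 (⟨hxI, hxs⟩ : x ∈ {t | t ∈ I ∧ t < s}) h3.le
      exact absurd h3 (not_lt_of_ge h4)
    · refine ⟨Node.root, root_le' s, ?_, h2⟩
      intro x _ hxs hxI
      exact hne ⟨x, hxI, hxs⟩
  -- step 2
  have d1 := hf.drift r0 s hr0s hr0I (by linarith)
  have e1 : 15 * ε < |a f r0| := by
    have := abs_sub_abs_le_abs_sub (a f s) (a f r0)
    rw [abs_sub_comm (a f s)] at this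
    linarith
  -- step 3
  obtain ⟨t1, ht1I, hr0t1, ht1, ht1'⟩ := exists_end f I ε hε hf r0 (by linarith)
  have d2 := hf.drift r0 t1 hr0t1 ht1 ht1'
  have e2 : 14 * ε < |a f t1| := by
    have := abs_sub_abs_le_abs_sub (a f r0) (a f t1)
    linarith
  have d3 := (h1 t1 ht1I).1
  have e3 : 13 * ε < |a g t1| := by
    have := abs_sub_abs_le_abs_sub (a f t1) (a g t1)
    linarith
  -- step 4
  have hst : s ≤ t1 := by
    rcases unique_path f I ε hε hf r0 s t1 hr0s hr0t1 hr0I ht1 (by linarith) ht1' with h | h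
    · exact h
    · rcases eq_or_lt_of_le h with h' | h'
      · exact h'.symm.le
      · exact absurd ht1I (hr0I t1 hr0t1 h')
  have hno : ∀ t, s ≤ t → t < t1 → t ∉ I := fun t h3 h4 => ht1 t (hr0s.trans h3) h4
  -- step 5
  have d4 := hf.drift s t1 hst hno (by linarith)
  have d5 := hg.drift s t1 hst hno (by linarith)
  have key : |a f s - a g s| ≤ 3 * ε := by
    rw [abs_le] at d3 d4 d5 ⊢
    constructor <;> linarith [d3.1, d3.2, d4.1, d4.2, d5.1, d5.2]
  refine ⟨key, ?_⟩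
  intro hsI x
  have hlt : s < t1 := lt_of_le_of_ne hst (fun h => hsI (h ▸ ht1I))
  have r1 := (dir_of_lt f I ε hε hf s t1 hlt hno (by linarith)).1 x
  have r2 := (dir_of_lt g I ε hε hg s t1 hlt hno (by linarith)).1 x
  by_cases hx : x ∈ cc (t1.val s.len)
  · rw [if_pos hx] at r1 r2
    rw [abs_le] at r1 r2 key ⊢
    constructor <;> linarith [r1.1, r1.2, r2.1, r2.2, key.1, key.2]
  · rw [if_neg hx] at r1 r2
    rw [abs_le] at r1 r2 key ⊢
    constructor <;> linarith [r1.1, r1.2, r2.1, r2.2, key.1, key.2]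

theorem claimB [WellFoundedLT W] [SuccOrder W] [NoMaxOrder W] [OrderBot W] (f g : C(K W, ℝ))
    (I : Set (Node W)) (hI : I.Finite) (ε : ℝ) (hε : 0 < ε) (hf : Good f I ε) (hg : Good g I ε)
    (h1 : ∀ t ∈ I, |a f t - a g t| ≤ ε ∧ (∀ x, |u f t x - u g t x| ≤ ε) ∧
      ∀ γ, |a f (t.snoc γ) - a g (t.snoc γ)| ≤ ε)
    (h2 : |a f Node.root - a g Node.root| ≤ ε) (s : Node W) :
    (|a f s| ≤ 16 * ε ∧ |a g s| ≤ 16 * ε) ∨
    (|a f s - a g s| ≤ 3 * ε ∧ (s ∉ I → ∀ x, |u f s x - u g s x| ≤ 5 * ε)) := by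
  by_cases c1 : 16 * ε < |a f s|
  · exact Or.inr (claimA f g I hI ε hε hf hg h1 h2 s c1)
  · by_cases c2 : 16 * ε < |a g s|
    · right
      have h1' : ∀ t ∈ I, |a g t - a f t| ≤ ε ∧ (∀ x, |u g t x - u f t x| ≤ ε) ∧
          ∀ γ, |a g (t.snoc γ) - a f (t.snoc γ)| ≤ ε := by
        intro t ht
        obtain ⟨b1, b2, b3⟩ := h1 t ht
        refine ⟨by rw [abs_sub_comm]; exact b1, fun x => ?_, fun γ => ?_⟩
        · rw [abs_sub_comm]; exact b2 x
        · rw [abs_sub_comm]; exact b3 γ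
      have h2' : |a g Node.root - a f Node.root| ≤ ε := by rw [abs_sub_comm]; exact h2
      obtain ⟨b1, b2⟩ := claimA g f I hI ε hε hg hf h1' h2' s c2
      refine ⟨by rw [abs_sub_comm]; exact b1, fun hs x => ?_⟩
      rw [abs_sub_comm]; exact b2 hs x
    · exact Or.inl ⟨not_lt.1 c1, not_lt.1 c2⟩

theorem reg_bound [SuccOrder W] [NoMaxOrder W] (f : C(K W, ℝ)) (ε : ℝ) (hε : 0 < ε) (s : Node W)
    (h : Reg ε s f) (h' : |a f s| ≤ 16 * ε) (x : G) : |u f s x| ≤ 17 * ε := by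
  obtain ⟨γ, hγ⟩ := h
  have r1 := hγ.1 x
  by_cases hx : x ∈ cc γ
  · rw [if_pos hx] at r1
    rw [abs_le] at r1 h' ⊢
    constructor <;> linarith [r1.1, r1.2, h'.1, h'.2]
  · rw [if_neg hx] at r1
    rw [abs_le] at r1 h' ⊢
    constructor <;> linarith [r1.1, r1.2, h'.1, h'.2]

theorem compare [WellFoundedLT W] [SuccOrder W] [NoMaxOrder W] [OrderBot W] (f g : C(K W, ℝ))
    (I : Set (Node W)) (hI : I.Finite) (ε : ℝ) (hε : 0 < ε) (hf : Good f I ε) (hg : Good g I ε)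
    (h1 : ∀ t ∈ I, |a f t - a g t| ≤ ε ∧ (∀ x, |u f t x - u g t x| ≤ ε) ∧
      ∀ γ, |a f (t.snoc γ) - a g (t.snoc γ)| ≤ ε)
    (h2 : |a f Node.root - a g Node.root| ≤ ε) :
    ∀ x : K W, |(f x - f K.inf) - (g x - g K.inf)| ≤ 34 * ε := by
  intro x
  cases x with
  | inf =>
    rw [sub_self, sub_self, sub_self, abs_zero]
    positivity
  | p s =>
    change |a f s - a g s| ≤ 34 * ε
    rcases claimB f g I hI ε hε hf hg h1 h2 s with ⟨b1, b2⟩ | ⟨b1, -⟩
    · rw [abs_le] at b1 b2 ⊢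
      constructor <;> linarith [b1.1, b1.2, b2.1, b2.2]
    · linarith
  | c s y =>
    change |u f s y - u g s y| ≤ 34 * ε
    by_cases hs : s ∈ I
    · have := (h1 s hs).2.1 y
      linarith
    · rcases claimB f g I hI ε hε hf hg h1 h2 s with ⟨b1, b2⟩ | ⟨-, b1⟩
      · have c1 := reg_bound f ε hε s (hf.reg s hs) b1 y
        have c2 := reg_bound g ε hε s (hg.reg s hs) b2 y
        rw [abs_le] at c1 c2 ⊢
        constructor <;> linarith [c1.1, c1.2, c2.1, c2.2]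
      · have := b1 hs y
        linarith

end P_compare

end Pool.Agent.Helper349.BCK
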