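import Pool.Agent.Helper349.BCK.Base
import Pool.Agent.Helper349.BCK.P_bdd
import Pool.Agent.Helper349.BCK.P_top

set_option autoImplicit false

open Set Filter Topology

namespace Pool.Agent.Helper349.BCK

open P_bdd P_top

namespace P_cover

variable {W : Type} [LinearOrder W]

theorem cover_closed (d : G → ℝ) [SuccOrder W] [NoMaxOrder W] (t : Node W) (v : Lab → ℝ) (ε : ℝ) :
    IsClosed[ptop] {f : C(K W, ℝ) | (∀ x, |u f t x - d x| ≤ ε) ∧
      ∀ γ, |a f (t.snoc γ) - v γ| ≤ ε} := by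
  rw [isClosed_induced_iff]
  refine ⟨{φ : K W → ℝ | (∀ x : G, |(φ (K.c t x) - φ K.inf) - d x| ≤ ε) ∧
      ∀ γ : Lab, |(φ (K.p (t.snoc γ)) - φ K.inf) - v γ| ≤ ε}, ?_, rfl⟩
  apply IsClosed.inter
  · have e : {φ : K W → ℝ | ∀ x : G, |(φ (K.c t x) - φ K.inf) - d x| ≤ ε} =
        ⋂ x : G, {φ : K W → ℝ | |(φ (K.c t x) - φ K.inf) - d x| ≤ ε} := by
      ext φ; simp only [Set.mem_ofPred_eq, Set.mem_iInter]
    change IsClosed {φ : K W → ℝ | ∀ x : G, |(φ (K.c t x) - φ K.inf) - d x| ≤ ε}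
    rw [e]
    apply isClosed_iInter
    intro x
    exact isClosed_le (by fun_prop) continuous_const
  · have e : {φ : K W → ℝ | ∀ γ : Lab, |(φ (K.p (t.snoc γ)) - φ K.inf) - v γ| ≤ ε} =
        ⋂ γ : Lab, {φ : K W → ℝ | |(φ (K.p (t.snoc γ)) - φ K.inf) - v γ| ≤ ε} := by
      ext φ; simp only [Set.mem_ofPred_eq, Set.mem_iInter]
    change IsClosed {φ : K W → ℝ | ∀ γ : Lab, |(φ (K.p (t.snoc γ)) - φ K.inf) - v γ| ≤ ε}
    rw [e]
    apply isClosed_iInter
    intro γ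
    exact isClosed_le (by fun_prop) continuous_const

theorem exists_cover [CompactSpace (K W)] [SuccOrder W] [NoMaxOrder W] (ε : ℝ) (hε : 0 < ε) :
    ∃ V : ℕ → Node W → Set C(K W, ℝ), (∀ j t, IsClosed[ptop] (V j t)) ∧
      (∀ f t, ∃ j, f ∈ V j t) ∧
      ∀ j t, ∀ f ∈ V j t, ∀ g ∈ V j t, (∀ x, |u f t x - u g t x| ≤ ε) ∧
        ∀ γ, |a f (t.snoc γ) - a g (t.snoc γ)| ≤ ε := by
  classical
  obtain ⟨E, hE⟩ := exists_surjective_nat (ℕ × (Lab →₀ ℚ))
  refine ⟨fun j t => {f : C(K W, ℝ) |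
    (∀ x, |u f t x - (TopologicalSpace.denseSeq C(G, ℝ) (E j).1) x| ≤ ε / 2) ∧
      ∀ γ, |a f (t.snoc γ) - (((E j).2 γ : ℚ) : ℝ)| ≤ ε / 2}, ?_, ?_, ?_⟩
  · intro j t
    exact cover_closed _ t (fun γ => (((E j).2 γ : ℚ) : ℝ)) (ε / 2)
  · intro f t
    have hu : Continuous fun x : G => u f t x := by
      unfold u
      exact (f.continuous.comp (cont_c t)).sub continuous_const
    obtain ⟨n, hn⟩ := (TopologicalSpace.denseRange_denseSeq C(G, ℝ)).exists_dist_lt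
      (⟨fun x => u f t x, hu⟩ : C(G, ℝ)) (show 0 < ε / 2 by positivity)
    have hfin := succ_fin f t (ε / 4) (by positivity)
    choose q hq using fun γ : Lab => exists_rat_near (a f (t.snoc γ)) (show 0 < ε / 2 by positivity)
    obtain ⟨v, hv⟩ : ∃ v : Lab →₀ ℚ, ∀ γ, v γ = if ε / 4 ≤ |a f (t.snoc γ)| then q γ else 0 := by
      refine ⟨Finsupp.onFinset hfin.toFinset (fun γ => if ε / 4 ≤ |a f (t.snoc γ)| then q γ else 0)
        ?_, fun γ => rfl⟩
      intro γ hγ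
      rw [Set.Finite.mem_toFinset]
      by_contra hcon
      exact hγ (if_neg hcon)
    obtain ⟨j, hj⟩ := hE (n, v)
    refine ⟨j, ?_, ?_⟩
    · intro x
      rw [hj]
      have h1 := ContinuousMap.dist_apply_le_dist (f := (⟨fun x => u f t x, hu⟩ : C(G, ℝ)))
        (g := TopologicalSpace.denseSeq C(G, ℝ) n) x
      rw [Real.dist_eq] at h1
      exact h1.trans hn.le
    · intro γ
      rw [hj]
      show |a f (t.snoc γ) - ((v γ : ℚ) : ℝ)| ≤ ε / 2
      rw [hv γ]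
      split_ifs with h
      · exact (hq γ).le
      · rw [Rat.cast_zero, sub_zero]
        linarith [not_le.mp h]
  · intro j t f hf g hg
    constructor
    · intro x
      have h1 := hf.1 x
      have h2 := hg.1 x
      rw [abs_le] at h1 h2 ⊢
      constructor <;> linarith [h1.1, h1.2, h2.1, h2.2]
    · intro γ
      have h1 := hf.2 γ
      have h2 := hg.2 γ
      rw [abs_le] at h1 h2 ⊢
      constructor <;> linarith [h1.1, h1.2, h2.1, h2.2]

end P_cover

end Pool.Agent.Helper349.BCK
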