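import Pool.Agent.Helper349.BCK.Base
import Pool.Agent.Helper349.BCK.P_basics
import Pool.Agent.Helper349.BCK.P_bdd
import Pool.Agent.Helper349.BCK.P_nearlim

set_option autoImplicit false

open Set Filter Topology

namespace Pool.Agent.Helper349.BCK

open P_basics P_bdd P_nearlim

namespace P_drift

variable {W : Type} [LinearOrder W]

theorem j13113_lb {ι : Type*} (t : Finset ι) (f : ι → ℝ) (hf : ∀ i ∈ t, 0 < f i) :
    ∃ c > 0, ∀ i ∈ t, c ≤ f i := by
  classical
  induction t using Finset.induction_on with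
  | empty => exact ⟨1, one_pos, by simp⟩
  | insert a t ha ih =>
    obtain ⟨c, hc, h⟩ := ih fun i hi => hf i (Finset.mem_insert_of_mem hi)
    refine ⟨min c (f a), lt_min hc (hf a (Finset.mem_insert_self a t)), fun i hi => ?_⟩
    rcases Finset.mem_insert.1 hi with rfl | hi
    · exact min_le_right _ _
    · exact (min_le_left _ _).trans (h i hi)

theorem j13113_reg [SuccOrder W] [NoMaxOrder W] {δ δ' : ℝ} (h : δ ≤ δ') {t : Node W}
    {f : C(K W, ℝ)} (hr : Reg δ t f) : Reg δ' t f := by
  obtain ⟨γ, h1, h2, h3⟩ := hr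
  exact ⟨γ, fun x => (h1 x).trans h, h2.trans h, fun γ' hγ' => (h3 γ' hγ').trans h⟩

theorem drift_below [WellFoundedLT W] [SuccOrder W] [NoMaxOrder W] [OrderBot W] (f : C(K W, ℝ))
    (m : Node W) : ∀ (ε θ : ℝ), 0 < ε → 0 < θ → ∃ δ > 0, ∀ s s' : Node W, s ≤ s' → s' ≤ m →
      (∀ t, s ≤ t → t < s' → Reg δ t f) → θ < |a f s'| → |a f s - a f s'| ≤ ε := by
  refine (node_wf (W := W)).induction (C := fun m => ∀ (ε θ : ℝ), 0 < ε → 0 < θ →
    ∃ δ > 0, ∀ s s' : Node W, s ≤ s' → s' ≤ m →
      (∀ t, s ≤ t → t < s' → Reg δ t f) → θ < |a f s'| → |a f s - a f s'| ≤ ε) m ?_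
  intro m ih ε θ hε hθ
  by_cases hm : Node.root = m
  · have hroot : ∀ s : Node W, s ≤ m → s = m := by
      intro s hs
      apply le_antisymm hs
      rw [← hm]
      exact ⟨bot_le, fun α hα => absurd hα (not_lt.2 bot_le)⟩
    refine ⟨1, one_pos, fun s s' h1 h2 _ _ => ?_⟩
    rw [hroot s (h1.trans h2), hroot s' h2, sub_self, abs_zero]
    exact hε.le
  set e' : ℝ := min ε θ / 8 with he'
  have hmin : 0 < min ε θ := lt_min hε hθ
  have he'0 : 0 < e' := by positivity
  have he'ε : e' ≤ ε / 8 := by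
    have := min_le_left ε θ
    rw [he']; linarith
  have he'θ : e' ≤ θ / 8 := by
    have := min_le_right ε θ
    rw [he']; linarith
  obtain ⟨r, hrm, hnear⟩ := near_lim f m hm e' he'0
  obtain ⟨δ0, hδ0, hIH⟩ := ih r hrm (ε / 4) (θ / 2) (by positivity) (by positivity)
  refine ⟨min δ0 (min (ε / 8) (θ / 8)), lt_min hδ0 (lt_min (by positivity) (by positivity)), ?_⟩
  set δ : ℝ := min δ0 (min (ε / 8) (θ / 8)) with hδ
  have hδ1 : δ ≤ δ0 := min_le_left _ _
  have hδ2 : δ ≤ ε / 8 := (min_le_right _ _).trans (min_le_left _ _)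
  have hδ3 : δ ≤ θ / 8 := (min_le_right _ _).trans (min_le_right _ _)
  have hnear' : ∀ t, r < t → t ≤ m → |a f t - a f m| ≤ e' := by
    intro t ht htm
    rcases htm.eq_or_lt with h | h
    · rw [h, sub_self, abs_zero]; exact he'0.le
    · exact (hnear t ht h).1.le
  intro s s' hss' hs'm hreg hθs'
  rcases comp_of_le s' r m hs'm hrm.le with h1 | h1
  · have := hIH s s' hss' h1 (fun t ht1 ht2 => j13113_reg hδ1 (hreg t ht1 ht2)) (by linarith)
    linarith
  rcases h1.eq_or_lt with h1 | h1
  · have := hIH s s' hss' h1.ge (fun t ht1 ht2 => j13113_reg hδ1 (hreg t ht1 ht2)) (by linarith)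
    linarith
  have e1 := hnear' s' h1 hs'm
  have key : s ≤ r → |a f s - a f s'| ≤ ε := by
    intro h2
    set q := r.snoc (s'.val r.len) with hq
    have hqs' : q ≤ s' := (snoc_le_iff r s' _).2 ⟨h1, rfl⟩
    have hrq : r < q := lt_snoc r _
    have e2 := hnear' q hrq (hqs'.trans hs'm)
    have e3 : 3 * θ / 4 < |a f q| := by
      have h3 : |a f s'| ≤ |a f q| + |a f q - a f m| + |a f s' - a f m| := by
        have h4 : a f s' = a f q - (a f q - a f m) + (a f s' - a f m) := by ring
        calc |a f s'| = |a f q - (a f q - a f m) + (a f s' - a f m)| := by rw [← h4]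
          _ ≤ |a f q - (a f q - a f m)| + |a f s' - a f m| := abs_add_le _ _
          _ ≤ |a f q| + |a f q - a f m| + |a f s' - a f m| := by
            gcongr
            exact abs_sub _ _
      linarith
    obtain ⟨γ0, hg1, hg2, hg3⟩ := hreg r h2 h1
    have hγ : s'.val r.len = γ0 := by
      by_contra hne
      have := hg3 _ hne
      rw [← hq] at this
      linarith
    rw [← hγ, ← hq] at hg2
    have e4 : θ / 2 < |a f r| := by
      have h3 : |a f q| ≤ |a f r| + |a f q - a f r| := by
        have h4 : a f q = a f r + (a f q - a f r) := by ring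
        calc |a f q| = |a f r + (a f q - a f r)| := by rw [← h4]
          _ ≤ _ := abs_add_le _ _
      linarith
    have e5 := hIH s r h2 le_rfl
      (fun t ht1 ht2 => j13113_reg hδ1 (hreg t ht1 (ht2.trans h1))) e4
    have h6 : |a f s - a f s'| ≤ |a f s - a f r| + |a f q - a f r| + |a f q - a f m| +
        |a f s' - a f m| := by
      have h7 : a f s - a f s' = (a f s - a f r) - (a f q - a f r) + (a f q - a f m) -
          (a f s' - a f m) := by ring
      rw [h7]
      calc |(a f s - a f r) - (a f q - a f r) + (a f q - a f m) - (a f s' - a f m)|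
          ≤ |(a f s - a f r) - (a f q - a f r) + (a f q - a f m)| + |a f s' - a f m| := abs_sub _ _
        _ ≤ |(a f s - a f r) - (a f q - a f r)| + |a f q - a f m| + |a f s' - a f m| := by
            gcongr
            exact abs_add_le _ _
        _ ≤ |a f s - a f r| + |a f q - a f r| + |a f q - a f m| + |a f s' - a f m| := by
            gcongr
            exact abs_sub _ _
    linarith
  rcases comp_of_le s r m (hss'.trans hs'm) hrm.le with h2 | h2
  · exact key h2
  rcases h2.eq_or_lt with h2 | h2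
  · exact key h2.ge
  have e2 := hnear' s h2 (hss'.trans hs'm)
  have h6 : |a f s - a f s'| ≤ |a f s - a f m| + |a f s' - a f m| := by
    have h7 : a f s - a f s' = (a f s - a f m) - (a f s' - a f m) := by ring
    rw [h7]
    exact abs_sub _ _
  linarith

theorem drift_all [WellFoundedLT W] [SuccOrder W] [NoMaxOrder W] [OrderBot W] (f : C(K W, ℝ))
    (ε θ : ℝ) (hε : 0 < ε) (hθ : 0 < θ) : ∃ δ > 0, ∀ s s' : Node W, s ≤ s' →
      (∀ t, s ≤ t → t < s' → Reg δ t f) → θ < |a f s'| → |a f s - a f s'| ≤ ε := by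
  obtain ⟨T, hT, hT1, -⟩ := bdd f θ hθ
  choose d hd0 hd using fun m : Node W => drift_below f m ε θ hε hθ
  obtain ⟨δ, hδ, hδT⟩ := j13113_lb hT.toFinset d fun m _ => hd0 m
  refine ⟨δ, hδ, fun s s' hss' hreg hθs' => ?_⟩
  obtain ⟨t', ht', hs't'⟩ := hT1 s' hθs'.le
  exact hd t' s s' hss' hs't'
    (fun t ht1 ht2 => j13113_reg (hδT t' (hT.mem_toFinset.2 ht')) (hreg t ht1 ht2)) hθs'

end P_drift

end Pool.Agent.Helper349.BCK
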