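import Pool.Agent.Helper349.BCK.Base

set_option autoImplicit false

open Set Filter Topology

namespace Pool.Agent.Helper349.BCK

namespace P_functional

variable {W : Type} [LinearOrder W]

theorem ef_avg {ι : Type} (P : Finset ι) (hP : P.Nonempty) (g : ι → ℝ) (b δ : ℝ)
    (h : ∀ S ∈ P, |g S - b| ≤ δ) : |(∑ S ∈ P, g S) / (P.card : ℝ) - b| ≤ δ := by
  have hc : (0 : ℝ) < P.card := by exact_mod_cast hP.card_pos
  have h1 : (∑ S ∈ P, g S) / (P.card : ℝ) - b = (∑ S ∈ P, (g S - b)) / (P.card : ℝ) := by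
    rw [Finset.sum_sub_distrib, Finset.sum_const, nsmul_eq_mul]
    field_simp
  rw [h1, abs_div, abs_of_pos hc, div_le_iff₀ hc]
  refine (Finset.abs_sum_le_sum_abs _ _).trans ?_
  refine (Finset.sum_le_card_nsmul _ _ δ h).trans ?_
  rw [nsmul_eq_mul, mul_comm]

theorem ef_lim {V : Type} [NormedAddCommGroup V] [NormedSpace ℝ V] (φ : ℕ → V → ℝ)
    (hadd : ∀ N f g, φ N (f + g) = φ N f + φ N g)
    (hsmul : ∀ N (c : ℝ) f, φ N (c • f) = c * φ N f) (hbd : ∀ N f, |φ N f| ≤ ‖f‖) :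
    ∃ Λ : V →L[ℝ] ℝ, ∀ (f : V) (b δ : ℝ), (∀ᶠ N in atTop, |φ N f - b| ≤ δ) →
      |Λ f - b| ≤ δ := by
  have hex : ∀ f : V, ∃ L : ℝ, Tendsto (fun N => φ N f) (hyperfilter ℕ : Filter ℕ) (𝓝 L) := by
    intro f
    obtain ⟨L, -, hL⟩ := (isCompact_Icc (a := -‖f‖) (b := ‖f‖)).ultrafilter_le_nhds
      ((hyperfilter ℕ).map (fun N => φ N f)) (by
        rw [Ultrafilter.coe_map, Filter.le_principal_iff, Filter.mem_map]
        exact Filter.univ_mem' fun N => abs_le.1 (hbd N f))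
    exact ⟨L, hL⟩
  choose L hL using hex
  have hle : (hyperfilter ℕ : Filter ℕ) ≤ atTop := by
    rw [← Nat.cofinite_eq_atTop]
    exact hyperfilter_le_cofinite
  refine ⟨LinearMap.mkContinuous
    { toFun := L
      map_add' := fun f g => ?_
      map_smul' := fun c f => ?_ } 1 ?_, ?_⟩
  · refine tendsto_nhds_unique (hL (f + g)) ?_
    simp only [hadd]
    exact (hL f).add (hL g)
  · refine tendsto_nhds_unique (hL (c • f)) ?_
    simp only [hsmul]
    exact (hL f).const_mul c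
  · intro f
    show ‖L f‖ ≤ 1 * ‖f‖
    rw [one_mul]
    exact le_of_tendsto (hL f).norm (Filter.Eventually.of_forall fun N => hbd N f)
  · intro f b δ h
    show |L f - b| ≤ δ
    exact le_of_tendsto ((hL f).sub_const b).abs (h.filter_mono hle)


theorem exists_functional [CompactSpace (K W)] (t : Node W) (n : ℕ) :
    ∃ Λ : C(K W, ℝ) →L[ℝ] ℝ,
      (∀ (f : C(K W, ℝ)) (b δ : ℝ), (∀ x : G, (∀ i < n, x i = false) → |f (K.c t x) - b| ≤ δ) →
        |Λ f - b| ≤ δ) ∧
      (∀ (f : C(K W, ℝ)) (b c δ : ℝ) (γ : Lab), n ≤ γ.1.2 →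
        (∀ x : G, x ∈ cc γ → |f (K.c t x) - (b + c)| ≤ δ) →
        (∀ x : G, x ∉ cc γ → |f (K.c t x) - b| ≤ δ) → |Λ f - (b + c / 2)| ≤ δ) := by 

  classical
  let P : ℕ → Finset (Finset ℕ) := fun N => (Finset.Ico n (n + N)).powerset
  let ind : Finset ℕ → G := fun S i => decide (i ∈ S)
  have hPne : ∀ N, (P N).Nonempty := fun N => ⟨∅, Finset.empty_mem_powerset _⟩
  obtain ⟨Λ, hΛ⟩ := ef_lim (V := C(K W, ℝ))
    (fun N f => (∑ S ∈ P N, f (K.c t (ind S))) / ((P N).card : ℝ)) (by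
      intro N f g
      rw [← add_div, ← Finset.sum_add_distrib]
      rfl) (by
      intro N c f
      rw [← mul_div_assoc, Finset.mul_sum]
      rfl) (by
      intro N f
      have h := ef_avg (P N) (hPne N) (fun S => f (K.c t (ind S))) 0 ‖f‖ (by
        intro S _
        rw [sub_zero]
        exact ContinuousMap.norm_coe_le_norm f _)
      rwa [sub_zero] at h)
  refine ⟨Λ, ?_, ?_⟩
  · intro f b δ h
    refine hΛ f b δ (Filter.Eventually.of_forall fun N => ?_)
    refine ef_avg (P N) (hPne N) (fun S => f (K.c t (ind S))) b δ ?_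
    intro S hS
    refine h _ ?_
    intro i hi
    have h1 : i ∉ S := by
      intro h2
      have h3 := Finset.mem_Ico.1 ((Finset.mem_powerset.1 hS) h2)
      omega
    simp [ind, h1]
  · intro f b c δ γ hγ h1 h2
    refine hΛ f (b + c / 2) δ ?_
    filter_upwards [Filter.eventually_gt_atTop (γ.1.2)] with N hN
    have hσ : ∀ S ∈ P N, symmDiff S {γ.1.2} ∈ P N := by
      intro S hS
      rw [Finset.mem_powerset] at hS ⊢
      intro x hx
      rw [Finset.mem_symmDiff, Finset.mem_singleton] at hx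
      rcases hx with hx | hx
      · exact hS hx.1
      · rw [hx.1, Finset.mem_Ico]
        exact ⟨hγ, by omega⟩
    have hsum : ∑ S ∈ P N, f (K.c t (ind S)) =
        ∑ S ∈ P N, f (K.c t (ind (symmDiff S {γ.1.2}))) := by
      refine Finset.sum_nbij' (fun S => symmDiff S {γ.1.2}) (fun S => symmDiff S {γ.1.2})
        hσ hσ ?_ ?_ ?_
      · intro S _
        exact symmDiff_symmDiff_cancel_right _ _
      · intro S _
        exact symmDiff_symmDiff_cancel_right _ _
      · intro S _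
        simp only [symmDiff_symmDiff_cancel_right]
    have havg : (∑ S ∈ P N, f (K.c t (ind S))) / ((P N).card : ℝ) =
        (∑ S ∈ P N, (f (K.c t (ind S)) + f (K.c t (ind (symmDiff S {γ.1.2})))) / 2) /
          ((P N).card : ℝ) := by
      rw [← Finset.sum_div, Finset.sum_add_distrib, ← hsum]
      ring
    show |(∑ S ∈ P N, f (K.c t (ind S))) / ((P N).card : ℝ) - (b + c / 2)| ≤ δ
    rw [havg]
    refine ef_avg (P N) (hPne N) _ _ _ ?_
    intro S hS
    have hij : γ.1.1 ≠ γ.1.2 := γ.2.ne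
    have hfi : ind (symmDiff S {γ.1.2}) γ.1.1 = ind S γ.1.1 := by
      simp [ind, Finset.mem_symmDiff, hij]
    have hfj : ind (symmDiff S {γ.1.2}) γ.1.2 = !(ind S γ.1.2) := by
      by_cases h : γ.1.2 ∈ S <;> simp [ind, Finset.mem_symmDiff, h]
    have hkey : (|f (K.c t (ind S)) - (b + c)| ≤ δ ∧
        |f (K.c t (ind (symmDiff S {γ.1.2}))) - b| ≤ δ) ∨
        (|f (K.c t (ind S)) - b| ≤ δ ∧
        |f (K.c t (ind (symmDiff S {γ.1.2}))) - (b + c)| ≤ δ) := by
      by_cases hS1 : ind S ∈ cc γ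
      · refine Or.inl ⟨h1 _ hS1, h2 _ ?_⟩
        have h3 : ind S γ.1.1 ≠ ind S γ.1.2 := hS1
        intro h4
        have h5 : ind (symmDiff S {γ.1.2}) γ.1.1 ≠ ind (symmDiff S {γ.1.2}) γ.1.2 := h4
        rw [hfi, hfj] at h5
        revert h3 h5
        cases ind S γ.1.1 <;> cases ind S γ.1.2 <;> simp
      · refine Or.inr ⟨h2 _ hS1, h1 _ ?_⟩
        have h3 : ¬ (ind S γ.1.1 ≠ ind S γ.1.2) := hS1
        show ind (symmDiff S {γ.1.2}) γ.1.1 ≠ ind (symmDiff S {γ.1.2}) γ.1.2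
        rw [hfi, hfj]
        revert h3
        cases ind S γ.1.1 <;> cases ind S γ.1.2 <;> simp
    rcases hkey with ⟨h3, h4⟩ | ⟨h3, h4⟩ <;>
    · rw [abs_le] at h3 h4 ⊢
      constructor <;> linarith [h3.1, h3.2, h4.1, h4.2]

end P_functional

end Pool.Agent.Helper349.BCK
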