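import Pool.Agent.Helper349.BCK.Base
import Pool.Agent.Helper349.BCK.P_top

set_option autoImplicit false

open Set Filter Topology

namespace Pool.Agent.Helper349.BCK

open P_top

namespace P_small

variable {W : Type} [LinearOrder W]

theorem exists_parity (W : Type) [DecidableEq W] : ∃ φ : (W → ZMod 2) → ZMod 2,
    ∀ (v : W → ZMod 2) (α : W), φ (v + Pi.single α 1) = φ v + 1 := by
  haveI : Fact (Nat.Prime 2) := ⟨Nat.prime_two⟩
  have hker : LinearMap.ker (Finsupp.lcoeFun : (W →₀ ZMod 2) →ₗ[ZMod 2] (W → ZMod 2)) = ⊥ := by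
    rw [LinearMap.ker_eq_bot]
    exact DFunLike.coe_injective
  obtain ⟨g, hg⟩ := LinearMap.exists_leftInverse_of_injective _ hker
  refine ⟨fun v => Finsupp.linearCombination (ZMod 2) (fun _ : W => (1 : ZMod 2)) (g v),
    fun v α => ?_⟩
  have h1 : g (Pi.single α 1) = Finsupp.single α 1 := by
    have h2 := LinearMap.congr_fun hg (Finsupp.single α (1 : ZMod 2))
    have h3 : (Finsupp.lcoeFun : (W →₀ ZMod 2) →ₗ[ZMod 2] (W → ZMod 2))
        (Finsupp.single α (1 : ZMod 2)) = Pi.single α 1 := by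
      funext x
      rw [Finsupp.lcoeFun_apply, Finsupp.single_eq_pi_single]
    rw [LinearMap.comp_apply, h3] at h2
    exact h2
  simp only [map_add, h1, Finsupp.linearCombination_single, smul_eq_mul, mul_one]

theorem exists_chi (t : Node W) : ∃ f : C(K W, ℝ), (∀ x ∈ F t, f x = 1) ∧
    ∀ x, x ∉ F t → f x = 0 := by
  have hc : IsClopen (F t) := isClopen_U (Sum.inl t)
  refine ⟨⟨(F t).indicator (fun _ => (1 : ℝ)), ?_⟩, fun x hx => ?_, fun x hx => ?_⟩
  · apply Continuous.indicator _ continuous_const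
    rw [hc.frontier_eq]
    intro a ha
    exact absurd ha (Set.notMem_empty a)
  · exact Set.indicator_of_mem hx (fun _ => (1 : ℝ))
  · exact Set.indicator_of_notMem hx (fun _ => (1 : ℝ))

theorem unpierced (P : Set G) (hP : P.Finite) (L : Set Lab) (hL : L.Finite) :
    ∃ γ : Lab, γ ∉ L ∧ ∀ x ∈ P, x ∉ cc γ := by
  haveI : Finite P := hP
  obtain ⟨y, hy⟩ := Finite.exists_infinite_fiber (fun (i : ℕ) (x : P) => x.1 i)
  have hI : ((fun (i : ℕ) (x : P) => x.1 i) ⁻¹' {y}).Infinite := Set.infinite_coe_iff.1 hy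
  obtain ⟨i, hi⟩ := hI.nonempty
  obtain ⟨M, hM⟩ := (hL.image (fun γ : Lab => γ.1.2)).bddAbove
  obtain ⟨j, hj, hij⟩ := hI.exists_gt (max i M)
  refine ⟨⟨(i, j), lt_of_le_of_lt (le_max_left _ _) hij⟩, ?_, ?_⟩
  · intro h
    have h1 : j ≤ M := hM ⟨_, h, rfl⟩
    exact absurd (lt_of_le_of_lt (le_max_right i M) hij) (not_lt.2 h1)
  · intro x hx h
    apply h
    have h1 := congrFun (show (fun (x : P) => x.1 i) = y from hi) ⟨x, hx⟩
    have h2 := congrFun (show (fun (x : P) => x.1 j) = y from hj) ⟨x, hx⟩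
    exact h1.trans h2.symm

end P_small

end Pool.Agent.Helper349.BCK
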