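import Pool.Agent.Helper349.BCK.Base
import Pool.Agent.Helper349.BCK.P_basics
import Pool.Agent.Helper349.BCK.P_small

set_option autoImplicit false

open Set Filter Topology

namespace Pool.Agent.Helper349.BCK

open P_basics P_small

namespace P_wedge

variable {W : Type} [LinearOrder W]

/-- the label seen by a point -/
def wedgeLab (t0 : Node W) : K W → Lab
  | .inf => lab0
  | .c s _ => s.val t0.len
  | .p s => s.val t0.len

/-- the Cantor point of a point -/
def wedgeG : K W → G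
  | .inf => fun _ => false
  | .c _ g => g
  | .p _ => fun _ => false

theorem wedge_excl (t0 s t : Node W) (γ : Lab) (h1 : t0 < s) (h2 : s ≤ t) (h3 : t.val t0.len = γ) :
    s.val t0.len = γ := by
  rw [← h3]
  exact h2.2 _ ((lt_iff_len t0 s).1 h1).2

theorem wedge_iff [SuccOrder W] [NoMaxOrder W] (P : Set (K W)) (t0 t : Node W) (γ : Lab)
    (hL : ∀ x ∈ P, wedgeLab t0 x ≠ γ) (hQ : ∀ g, K.c t0 g ∈ P → g ∉ cc γ)
    (ht : t0.snoc γ ≤ t) (x : K W) (hx : x ∈ P) : x ∈ F t ↔ x ∈ F t0 := by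
  obtain ⟨hlt, hval⟩ := (snoc_le_iff t0 t γ).1 ht
  cases x with
  | inf => rw [mem_F_inf, mem_F_inf]
  | p s =>
    rw [mem_F_p, mem_F_p]
    constructor
    · intro h
      rcases comp_of_le s t0 t h hlt.le with h1 | h1
      · exact h1
      · rcases h1.lt_or_eq with h2 | h2
        · exact absurd (wedge_excl t0 s t γ h2 h hval) (hL _ hx)
        · exact h2.ge
    · intro h
      exact h.trans hlt.le
  | c s g =>
    rw [mem_F_c, mem_F_c]
    constructor
    · rintro ⟨h, hg⟩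
      rcases comp_of_le s t0 t h.le hlt.le with h1 | h1
      · rcases h1.lt_or_eq with h2 | h2
        · refine ⟨h2, ?_⟩
          rw [hlt.le.2 s.len ((lt_iff_len s t0).1 h2).2]
          exact hg
        · subst h2
          rw [hval] at hg
          exact absurd hg (hQ g hx)
      · rcases h1.lt_or_eq with h2 | h2
        · exact absurd (wedge_excl t0 s t γ h2 h.le hval) (hL _ hx)
        · subst h2
          rw [hval] at hg
          exact absurd hg (hQ g hx)
    · rintro ⟨h, hg⟩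
      refine ⟨h.trans hlt, ?_⟩
      rw [← hlt.le.2 s.len ((lt_iff_len s t0).1 h).2]
      exact hg

theorem wedge [WellFoundedLT W] [SuccOrder W] [NoMaxOrder W] (χ : Node W → C(K W, ℝ))
    (hχ : ∀ t, (∀ x ∈ F t, χ t x = 1) ∧ ∀ x, x ∉ F t → χ t x = 0)
    (O : Set (Node W)) (hO : IsOpen[TopologicalSpace.induced χ ptop] O) (t0 : Node W)
    (ht0 : t0 ∈ O) : ∃ t1, t0 ≤ t1 ∧ ∀ t, t1 ≤ t → t ∈ O := by
  obtain ⟨O', hO', rfl⟩ := hO
  obtain ⟨V, hV, rfl⟩ := hO'
  obtain ⟨I, u, hu, hsub⟩ := isOpen_pi_iff.1 hV _ ht0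
  obtain ⟨γ, hγL, hγQ⟩ := unpierced (wedgeG '' (I : Set (K W))) (I.finite_toSet.image _)
    (wedgeLab t0 '' (I : Set (K W))) (I.finite_toSet.image _)
  refine ⟨t0.snoc γ, (lt_snoc t0 γ).le, fun t ht => ?_⟩
  apply hsub
  intro x hx
  have hiff := wedge_iff (I : Set (K W)) t0 t γ
    (fun y hy h => hγL ⟨y, hy, h⟩) (fun g hg => hγQ g ⟨_, hg, rfl⟩) ht x hx
  have heq : χ t x = χ t0 x := by
    by_cases h : x ∈ F t0
    · rw [(hχ t0).1 x h, (hχ t).1 x (hiff.2 h)]
    · rw [(hχ t0).2 x h, (hχ t).2 x (fun h2 => h (hiff.1 h2))]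
  show χ t x ∈ u x
  rw [heq]
  exact (hu x hx).2

end P_wedge

end Pool.Agent.Helper349.BCK
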