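import Pool.Agent.Helper349.BCK.Base
import Pool.Agent.Helper349.BCK.P_basics
import Pool.Agent.Helper349.BCK.P_small
import Pool.Agent.Helper349.BCK.P_wedge

set_option autoImplicit false

open Set Filter Topology

namespace Pool.Agent.Helper349.BCK

open P_basics P_small P_wedge

namespace P_pbad

variable {W : Type} [LinearOrder W]

/-- a second label -/
def p_bad_lab1 : Lab := ⟨(0, 2), by norm_num⟩

theorem p_bad_lab_ne : p_bad_lab1 ≠ lab0 := by
  intro h
  have := congrArg (fun x : Lab => x.1.2) h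
  simp [p_bad_lab1, lab0] at this

/-- twin nodes: equal except at `l`, with values `γ`, `γ'` -/
structure p_bad_Tw (l : W) (γ γ' : Lab) (s s' : Node W) : Prop where
  len : s.len = s'.len
  lt : l < s.len
  v : s.val l = γ
  v' : s'.val l = γ'
  eq : ∀ α, α ≠ l → s.val α = s'.val α

theorem p_bad_Tw.symm {l : W} {γ γ' : Lab} {s s' : Node W} (h : p_bad_Tw l γ γ' s s') :
    p_bad_Tw l γ' γ s' s :=
  ⟨h.len.symm, h.len ▸ h.lt, h.v', h.v, fun α hα => (h.eq α hα).symm⟩

theorem p_bad_transport (l : W) (γ γ' : Lab) (t : Node W) (hl : l < t.len) (hv : t.val l = γ) :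
    ∃ t', p_bad_Tw l γ γ' t t' ∧ ∀ s s', p_bad_Tw l γ γ' s s' → s ≤ t → s' ≤ t' := by
  refine ⟨⟨t.len, Function.update t.val l γ', ?_⟩, ⟨rfl, hl, hv, ?_, ?_⟩, ?_⟩
  · intro β hβ
    rw [Function.update_of_ne (lt_of_lt_of_le hl hβ).ne']
    exact t.dflt β hβ
  · simp
  · intro α hα
    simp [Function.update_of_ne hα]
  · intro s s' hs hst
    rw [Node.le_def] at hst ⊢
    refine ⟨hs.len ▸ hst.1, ?_⟩
    intro α hα
    by_cases hαl : α = l
    · subst hαl
      simp [hs.v']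
    · simp only [Function.update_of_ne hαl]
      rw [← hs.eq α hαl]
      exact hst.2 α (by rw [hs.len]; exact hα)

theorem p_bad_limit (hW : ∀ s : ℕ → W, ∃ b, ∀ n, s n < b) (s : ℕ → Node W)
    (hs : ∀ n, s n ≤ s (n + 1)) : ∃ t, ∀ n, s n ≤ t := by
  classical
  have hmono : Monotone s := monotone_nat_of_le_succ hs
  obtain ⟨b, hb⟩ := hW (fun n => (s n).len)
  refine ⟨⟨b, fun α => if h : ∃ n, α < (s n).len then (s (Nat.find h)).val α else lab0, ?_⟩, ?_⟩
  · intro β hβ
    rw [dif_neg]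
    rintro ⟨n, hn⟩
    exact absurd (hn.trans (hb n)) (not_lt.2 hβ)
  · intro n
    rw [Node.le_def]
    refine ⟨(hb n).le, ?_⟩
    intro α hα
    have h : ∃ n, α < (s n).len := ⟨n, hα⟩
    show (s n).val α = dite _ _ _
    rw [dif_pos h]
    have h1 : s (Nat.find h) ≤ s n := hmono (Nat.find_min' h hα)
    exact ((Node.le_def _ _).1 h1).2 α (Nat.find_spec h) |>.symm

theorem p_bad_fusion [SuccOrder W] [NoMaxOrder W] (hW : ∀ s : ℕ → W, ∃ b, ∀ n, s n < b)
    (t1 : Node W) (D : ℕ → Set (Node W))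
    (hD : ∀ n (s : Node W), ∃ s', s ≤ s' ∧ ∀ t, s' ≤ t → t ∈ D n) :
    ∃ t t' : Node W, t1 ≤ t ∧ t1 ≤ t' ∧ (∀ n, t ∈ D n) ∧ (∀ n, t' ∈ D n) ∧
      p_bad_Tw t1.len lab0 p_bad_lab1 t t' := by
  have hstep : ∀ n (x : {x : Node W × Node W // p_bad_Tw t1.len lab0 p_bad_lab1 x.1 x.2}),
      ∃ y : {x : Node W × Node W // p_bad_Tw t1.len lab0 p_bad_lab1 x.1 x.2},
        x.1.1 ≤ y.1.1 ∧ x.1.2 ≤ y.1.2 ∧ (∀ t, y.1.1 ≤ t → t ∈ D n) ∧
          (∀ t, y.1.2 ≤ t → t ∈ D n) := by
    rintro n ⟨⟨s, s'⟩, hss⟩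
    obtain ⟨r1, hr1, hr1D⟩ := hD n s
    have hl1 : t1.len < r1.len := lt_of_lt_of_le hss.lt ((Node.le_def _ _).1 hr1).1
    have hv1 : r1.val t1.len = lab0 := by
      rw [← ((Node.le_def _ _).1 hr1).2 _ hss.lt]
      exact hss.v
    obtain ⟨r1', hrr1, htr1⟩ := p_bad_transport t1.len lab0 p_bad_lab1 r1 hl1 hv1
    have hs1 : s' ≤ r1' := htr1 s s' hss hr1
    obtain ⟨r2', hr2, hr2D⟩ := hD n r1'
    have hl2 : t1.len < r2'.len := lt_of_lt_of_le hrr1.symm.lt ((Node.le_def _ _).1 hr2).1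
    have hv2 : r2'.val t1.len = p_bad_lab1 := by
      rw [← ((Node.le_def _ _).1 hr2).2 _ hrr1.symm.lt]
      exact hrr1.v'
    obtain ⟨r2, hrr2, htr2⟩ := p_bad_transport t1.len p_bad_lab1 lab0 r2' hl2 hv2
    have hr12 : r1 ≤ r2 := htr2 r1' r1 hrr1.symm hr2
    exact ⟨⟨(r2, r2'), hrr2.symm⟩, hr1.trans hr12, hs1.trans hr2,
      fun t ht => hr1D t (hr12.trans ht), hr2D⟩
  choose nx h1 h2 h3 h4 using hstep
  have hsl : ∀ γ : Lab, (t1.snoc γ).len = Order.succ t1.len := fun γ => rfl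
  have hsv : ∀ γ : Lab, (t1.snoc γ).val = Function.update t1.val t1.len γ := fun γ => rfl
  have h0 : p_bad_Tw t1.len lab0 p_bad_lab1 (t1.snoc lab0) (t1.snoc p_bad_lab1) := by
    refine ⟨by rw [hsl, hsl], by rw [hsl]; exact Order.lt_succ _, by rw [hsv]; simp,
      by rw [hsv]; simp, ?_⟩
    intro α hα
    rw [hsv, hsv, Function.update_of_ne hα, Function.update_of_ne hα]
  let sq : ℕ → {x : Node W × Node W // p_bad_Tw t1.len lab0 p_bad_lab1 x.1 x.2} :=
    fun n => Nat.rec ⟨(t1.snoc lab0, t1.snoc p_bad_lab1), h0⟩ (fun n x => nx n x) n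
  have hsq : ∀ n, sq (n + 1) = nx n (sq n) := fun n => rfl
  obtain ⟨t, ht⟩ := p_bad_limit hW (fun n => (sq n).1.1) (fun n => by
    rw [hsq]; exact h1 n (sq n))
  have ht0 : t1.snoc lab0 ≤ t := ht 0
  have hlt : t1.len < (t1.snoc lab0).len := by rw [hsl]; exact Order.lt_succ _
  have hl : t1.len < t.len := lt_of_lt_of_le hlt ((Node.le_def _ _).1 ht0).1
  have hv : t.val t1.len = lab0 := by
    rw [← ((Node.le_def _ _).1 ht0).2 _ hlt]
    exact h0.v
  obtain ⟨t', htt, htr⟩ := p_bad_transport t1.len lab0 p_bad_lab1 t hl hv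
  have ht' : ∀ n, (sq n).1.2 ≤ t' := fun n => htr _ _ (sq n).2 (ht n)
  refine ⟨t, t', (lt_snoc t1 lab0).le.trans ht0, (lt_snoc t1 p_bad_lab1).le.trans (ht' 0),
    ?_, ?_, htt⟩
  · intro n
    apply h3 n (sq n)
    rw [← hsq]
    exact ht (n + 1)
  · intro n
    apply h4 n (sq n)
    rw [← hsq]
    exact ht' (n + 1)

theorem p_bad [CompactSpace (K W)] [WellFoundedLT W] [SuccOrder W] [NoMaxOrder W] [OrderBot W]
    (hW : ∀ s : ℕ → W, ∃ b, ∀ n, s n < b) :
    ∃ E : Set C(K W, ℝ), IsClosed E ∧ ¬ @MeasurableSet _ (@borel _ ptop) E := by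
  classical
  choose χ hχ using fun t : Node W => exists_chi t
  have hval : ∀ s t : Node W, χ t (K.p s) = if s ≤ t then 1 else 0 := by
    intro s t
    split_ifs with h
    · exact (hχ t).1 _ ((mem_F_p t s).2 h)
    · exact (hχ t).2 _ (fun h' => h ((mem_F_p t s).1 h'))
  have hdist1 : ∀ s t : Node W, ¬ s ≤ t → 1 ≤ dist (χ s) (χ t) := by
    intro s t h
    have h1 := ContinuousMap.dist_apply_le_dist (f := χ s) (g := χ t) (K.p s)
    rw [hval, hval, if_pos le_rfl, if_neg h] at h1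
    simpa using h1
  have hdist : ∀ s t : Node W, s ≠ t → 1 ≤ dist (χ s) (χ t) := by
    intro s t h
    by_cases h1 : s ≤ t
    · have h2 : ¬ t ≤ s := fun h2 => h (le_antisymm h1 h2)
      rw [dist_comm]
      exact hdist1 t s h2
    · exact hdist1 s t h1
  have hinj : Function.Injective χ := by
    intro s t h
    by_contra hne
    have := hdist s t hne
    rw [h, dist_self] at this
    norm_num at this
  obtain ⟨φ, hφ⟩ := exists_parity W
  let hh : Lab → ZMod 2 := fun γ => if γ = p_bad_lab1 then 1 else 0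
  have hh0 : hh lab0 = 0 := by simp [hh, p_bad_lab_ne.symm]
  have hh1 : hh p_bad_lab1 = 1 := by simp [hh]
  let E0 : Set (Node W) := {t | φ (fun b => hh (t.val b)) = 0}
  refine ⟨χ '' E0, ?_, ?_⟩
  · apply Metric.isClosed_of_pairwise_le_dist (ε := 1) one_pos
    rintro _ ⟨s, _, rfl⟩ _ ⟨t, _, rfl⟩ hne
    exact hdist s t (fun h => hne (by rw [h]))
  · intro hE
    have hpre : χ ⁻¹' (χ '' E0) = E0 := Set.preimage_image_eq E0 hinj
    letI σ : TopologicalSpace (Node W) := TopologicalSpace.induced χ ptop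
    letI mσ : MeasurableSpace (Node W) := borel (Node W)
    haveI : BorelSpace (Node W) := ⟨rfl⟩
    have hE0 : MeasurableSet E0 := by
      show @MeasurableSet _ (@borel _ (TopologicalSpace.induced χ ptop)) E0
      rw [borel_comap]
      exact ⟨χ '' E0, hE, hpre⟩
    obtain ⟨O, hO, hEO⟩ := MeasurableSet.residualEq_isOpen hE0
    have hres : {t | t ∈ E0 ↔ t ∈ O} ∈ residual (Node W) := by
      filter_upwards [hEO] with t ht
      exact iff_of_eq ht
    rw [mem_residual_iff] at hres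
    obtain ⟨S, hSo, hSd, hSc, hSs⟩ := hres
    have hSne : (insert (univ : Set (Node W)) S).Nonempty := ⟨univ, Set.mem_insert _ _⟩
    obtain ⟨D, hDr⟩ := (hSc.insert univ).exists_eq_range hSne
    have hDo : ∀ n, IsOpen (D n) := by
      intro n
      have : D n ∈ insert (univ : Set (Node W)) S := by rw [hDr]; exact ⟨n, rfl⟩
      rcases this with h | h
      · rw [h]; exact isOpen_univ
      · exact hSo _ h
    have hDd : ∀ n, Dense (D n) := by
      intro n
      have : D n ∈ insert (univ : Set (Node W)) S := by rw [hDr]; exact ⟨n, rfl⟩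
      rcases this with h | h
      · rw [h]; exact dense_univ
      · exact hSd _ h
    have hDs : ∀ t, (∀ n, t ∈ D n) → (t ∈ E0 ↔ t ∈ O) := by
      intro t ht
      apply hSs
      intro A hA
      have : A ∈ insert (univ : Set (Node W)) S := Set.mem_insert_of_mem _ hA
      rw [hDr] at this
      obtain ⟨n, rfl⟩ := this
      exact ht n
    have hwo : ∀ s : Node W, IsOpen {t : Node W | s ≤ t} := by
      intro s
      apply (@isOpen_induced_iff (Node W) C(K W, ℝ) ptop _ χ).2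
      refine ⟨{f : C(K W, ℝ) | f (K.p s) ∈ Set.Ioi (1/2 : ℝ)}, ?_, ?_⟩
      · apply isOpen_induced_iff.2
        exact ⟨{g : K W → ℝ | g (K.p s) ∈ Set.Ioi (1/2 : ℝ)},
          isOpen_Ioi.preimage (continuous_apply _), rfl⟩
      · ext t
        simp only [Set.mem_preimage, Set.mem_setOf_eq, Set.mem_Ioi, hval]
        split_ifs with h
        · simp only [h, iff_true]; norm_num
        · simp only [h, iff_false]; norm_num
    have hD : ∀ n (s : Node W), ∃ s', s ≤ s' ∧ ∀ t, s' ≤ t → t ∈ D n := by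
      intro n s
      obtain ⟨t0, ht0s, ht0D⟩ := (hDd n).inter_open_nonempty _ (hwo s) ⟨s, le_refl s⟩
      obtain ⟨t2, ht2, ht2D⟩ := wedge χ hχ (D n) (hDo n) t0 ht0D
      exact ⟨t2, le_trans ht0s ht2, ht2D⟩
    have hconst : ∃ t1 : Node W, (∀ t, t1 ≤ t → t ∈ O) ∨ (∀ t, t1 ≤ t → t ∉ O) := by
      by_cases hne : O.Nonempty
      · obtain ⟨t0, ht0⟩ := hne
        obtain ⟨t1, _, ht1⟩ := wedge χ hχ O hO t0 ht0
        exact ⟨t1, Or.inl ht1⟩
      · exact ⟨Node.root, Or.inr fun t _ ht => hne ⟨t, ht⟩⟩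
    obtain ⟨t1, ht1⟩ := hconst
    obtain ⟨t, t', h1t, h1t', htD, htD', htw⟩ := p_bad_fusion hW t1 D hD
    have hiff : t ∈ E0 ↔ t' ∈ E0 := by
      rw [hDs t htD, hDs t' htD']
      rcases ht1 with h | h
      · exact ⟨fun _ => h t' h1t', fun _ => h t h1t⟩
      · exact ⟨fun h' => absurd h' (h t h1t), fun h' => absurd h' (h t' h1t')⟩
    have hv : (fun b => hh (t'.val b)) = (fun b => hh (t.val b)) + Pi.single t1.len 1 := by
      funext b
      rw [Pi.add_apply]
      by_cases hb : b = t1.len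
      · subst hb
        rw [Pi.single_eq_same, htw.v, htw.v', hh0, hh1, zero_add]
      · rw [Pi.single_eq_of_ne hb, add_zero, htw.eq b hb]
    have hφ' := hφ (fun b => hh (t.val b)) t1.len
    rw [← hv] at hφ'
    have hiff' : φ (fun b => hh (t.val b)) = 0 ↔ φ (fun b => hh (t'.val b)) = 0 := hiff
    rw [hφ'] at hiff'
    generalize φ (fun b => hh (t.val b)) = x at hiff'
    revert hiff'
    revert x
    decide

end P_pbad

end Pool.Agent.Helper349.BCK
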