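import Pool.Agent.Helper349.BCK.Base
import Pool.Agent.Helper349.BCK.P_closed
import Pool.Agent.Helper349.BCK.P_functional
import Pool.Agent.Helper349.BCK.P_top

set_option autoImplicit false

open Set Filter Topology

namespace Pool.Agent.Helper349.BCK

open P_closed P_functional P_top

namespace P_regclosure

variable {W : Type} [LinearOrder W]

theorem reg_closure_c1 {X : Type*} [TopologicalSpace X] {e1 e2 e3 : X → ℝ} (h1 : Continuous e1)
    (h2 : Continuous e2) (h3 : Continuous e3) :
    Continuous (fun x => |e1 x - e3 x| - |e2 x - e3 x|) := by fun_prop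

theorem reg_closure_c2 {X : Type*} [TopologicalSpace X] {e1 e3 : X → ℝ} (h1 : Continuous e1)
    (h3 : Continuous e3) : Continuous (fun x => |e1 x - e3 x|) := by fun_prop

theorem reg_closure_c3 {X : Type*} [TopologicalSpace X] {l e1 e3 : X → ℝ} (hl : Continuous l)
    (h1 : Continuous e1) (h3 : Continuous e3) :
    Continuous (fun x => |l x - (e3 x + (e1 x - e3 x) / 2)|) := by fun_prop

theorem reg_closure_cl {X : Type*} [TopologicalSpace X] {s : Set X} {F : X → ℝ}
    (hF : Continuous F) {δ : ℝ} (hs : ∀ h ∈ s, F h ≤ δ) {f : X} (hf : f ∈ closure s) : F f ≤ δ := by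
  have h1 : closure s ⊆ F ⁻¹' Iic δ := closure_minimal hs (isClosed_Iic.preimage hF)
  exact h1 hf

theorem reg_closure_split {X : Type*} [TopologicalSpace X] {s C B : Set X} (hC : IsClosed C)
    (hs : s ⊆ C ∪ B) {f : X} (hf : f ∈ closure s) : f ∈ C ∨ f ∈ closure B := by
  have h1 := closure_mono hs hf
  rw [closure_union, hC.closure_eq] at h1
  exact h1

theorem reg_closure_n (g : G → ℝ) (hg : Continuous g) (δ : ℝ) (hδ : 0 < δ) :
    ∃ n : ℕ, ∀ x : G, (∀ i < n, x i = false) → |g x - g (fun _ => false)| ≤ δ := by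
  have hopen : IsOpen {x : G | |g x - g (fun _ => false)| < δ} :=
    isOpen_lt (by fun_prop) continuous_const
  rw [isOpen_pi_iff] at hopen
  obtain ⟨I, u, hu, hsub⟩ := hopen (fun _ => false) (by
    show |g (fun _ => false) - g (fun _ => false)| < δ
    rw [sub_self, abs_zero]
    exact hδ)
  refine ⟨I.sup id + 1, fun x hx => le_of_lt (hsub ?_)⟩
  intro i hi
  have h1 : i < I.sup id + 1 := Nat.lt_succ_of_le (Finset.le_sup (f := id) hi)
  rw [hx i h1]
  exact (hu i hi).2

theorem reg_closure_fin (n : ℕ) : {γ : Lab | γ.1.2 < n}.Finite := by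
  have h1 : {p : ℕ × ℕ | p.1 < n ∧ p.2 < n}.Finite :=
    ((Set.finite_Iio n).prod (Set.finite_Iio n)).subset (fun p hp => ⟨hp.1, hp.2⟩)
  refine (h1.preimage (f := fun γ : Lab => γ.1) Subtype.val_injective.injOn).subset ?_
  intro γ hγ
  have h2 : γ.1.2 < n := hγ
  exact ⟨γ.2.trans h2, h2⟩

theorem reg_closure_rg_mono [SuccOrder W] [NoMaxOrder W] {ε ε' : ℝ} (h : ε ≤ ε') {t : Node W}
    {γ : Lab} {f : C(K W, ℝ)} (hf : Rg ε t γ f) : Rg ε' t γ f :=
  ⟨fun x => (hf.1 x).trans h, hf.2.1.trans h, fun γ' hγ' => (hf.2.2 γ' hγ').trans h⟩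

theorem reg_closure [CompactSpace (K W)] [SuccOrder W] [NoMaxOrder W] (δ : ℝ) (hδ : 0 < δ)
    (t : Node W) (f : C(K W, ℝ)) (hf : f ∈ @closure _ wtop {h : C(K W, ℝ) | Reg δ t h}) :
    Reg (42 * δ) t f := by
  classical
  -- continuity for the weak topology
  have hev : ∀ x : K W, @Continuous _ _ wtop _ (fun h : C(K W, ℝ) => h x) := by
    intro x
    have h1 : @Continuous _ _ ptop _ (fun h : C(K W, ℝ) => (⇑h : K W → ℝ)) := continuous_induced_dom
    have h2 : @Continuous _ _ wtop _ (fun h : C(K W, ℝ) => (⇑h : K W → ℝ)) :=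
      continuous_le_dom wtop_le_ptop h1
    exact @Continuous.comp _ _ _ wtop _ _ _ _ (continuous_apply x) h2
  have hlam : ∀ φ : C(K W, ℝ) →L[ℝ] ℝ, @Continuous _ _ wtop _ (fun h : C(K W, ℝ) => φ h) := by
    intro φ
    have h1 : @Continuous _ _ wtop _
        (fun f : C(K W, ℝ) => fun φ : C(K W, ℝ) →L[ℝ] ℝ => φ f) := continuous_induced_dom
    exact @Continuous.comp _ _ _ wtop _ _ _ (fun p : (C(K W, ℝ) →L[ℝ] ℝ) → ℝ => p φ)
      (continuous_apply φ) h1
  -- the point zero
  have hzero : ∀ γ : Lab, (fun _ => false : G) ∉ cc γ := fun γ h => h rfl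
  -- (A)
  have hA1 : ∀ x, |u f t x| ≤ |a f t| + δ := by
    intro x
    have h1 := @reg_closure_cl _ wtop _ _ (@reg_closure_c1 _ wtop _ _ _ (hev (K.c t x))
      (hev (K.p t)) (hev K.inf)) δ (by
        rintro h ⟨γ, hγ⟩
        show |u h t x| - |a h t| ≤ δ
        have h2 := hγ.1 x
        split_ifs at h2 with hx
        · have h3 := abs_sub_abs_le_abs_sub (u h t x) (a h t)
          linarith
        · rw [sub_zero] at h2
          have := abs_nonneg (a h t)
          linarith) f hf
    have h2 : |u f t x| - |a f t| ≤ δ := h1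
    linarith
  have hA2 : ∀ γ, |a f (t.snoc γ)| ≤ |a f t| + δ := by
    intro γ
    have h1 := @reg_closure_cl _ wtop _ _ (@reg_closure_c1 _ wtop _ _ _ (hev (K.p (t.snoc γ)))
      (hev (K.p t)) (hev K.inf)) δ (by
        rintro h ⟨γ', hγ'⟩
        show |a h (t.snoc γ)| - |a h t| ≤ δ
        by_cases hγ : γ = γ'
        · subst hγ
          have h3 := abs_sub_abs_le_abs_sub (a h (t.snoc γ)) (a h t)
          linarith [hγ'.2.1]
        · have := hγ'.2.2 γ hγ
          have := abs_nonneg (a h t)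
          linarith) f hf
    have h2 : |a f (t.snoc γ)| - |a f t| ≤ δ := h1
    linarith
  have hA3 : |u f t (fun _ => false)| ≤ δ := by
    exact @reg_closure_cl _ wtop _ _ (@reg_closure_c2 _ wtop _ _ (hev (K.c t (fun _ => false)))
      (hev K.inf)) δ (by
        rintro h ⟨γ, hγ⟩
        show |u h t (fun _ => false)| ≤ δ
        have h2 := hγ.1 (fun _ => false)
        rwa [if_neg (hzero γ), sub_zero] at h2) f hf
  by_cases hsmall : |a f t| ≤ 20 * δ
  · refine ⟨lab0, fun x => ?_, ?_, fun γ' _ => ?_⟩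
    · have h1 := hA1 x
      split_ifs
      · have := abs_sub (u f t x) (a f t)
        linarith
      · rw [sub_zero]
        linarith
    · have h1 := hA2 lab0
      have := abs_sub (a f (t.snoc lab0)) (a f t)
      linarith
    · have h1 := hA2 γ'
      linarith
  · rw [not_le] at hsmall
    obtain ⟨n, hn⟩ := reg_closure_n (fun x => f (K.c t x)) (f.continuous.comp (cont_c t)) δ hδ
    obtain ⟨Λ, hΛ1, hΛ2⟩ := exists_functional t n
    have hΛf : |Λ f - f (K.c t (fun _ => false))| ≤ δ := hΛ1 f _ δ hn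
    have hCclosed : @IsClosed _ wtop (⋃ γ ∈ {γ : Lab | γ.1.2 < n}, {h : C(K W, ℝ) | Rg δ t γ h}) :=
      @Set.Finite.isClosed_biUnion _ _ wtop _ _ (reg_closure_fin n)
        (fun γ _ => IsClosed.mono (rg_closed δ t γ) wtop_le_ptop)
    have hsplit := @reg_closure_split _ wtop {h : C(K W, ℝ) | Reg δ t h} _
      {h : C(K W, ℝ) | ∃ γ : Lab, n ≤ γ.1.2 ∧ Rg δ t γ h} hCclosed (by
        rintro h ⟨γ, hγ⟩
        rcases lt_or_ge γ.1.2 n with h1 | h1
        · left
          exact Set.mem_biUnion (show γ ∈ {γ : Lab | γ.1.2 < n} from h1) hγ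
        · right
          exact ⟨γ, h1, hγ⟩) f hf
    rcases hsplit with h1 | h1
    · rw [Set.mem_iUnion₂] at h1
      obtain ⟨γ, _, hγ⟩ := h1
      have hγ' : Rg δ t γ f := hγ
      exact ⟨γ, reg_closure_rg_mono (by linarith) hγ'⟩
    · exfalso
      have h2 := @reg_closure_cl _ wtop _ _ (@reg_closure_c3 _ wtop _ _ _ (hlam Λ) (hev (K.p t))
        (hev K.inf)) δ (by
          rintro h ⟨γ, hnγ, hγ⟩
          show |Λ h - (h K.inf + a h t / 2)| ≤ δ
          refine hΛ2 h (h K.inf) (a h t) δ γ hnγ ?_ ?_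
          · intro x hx
            have h3 := hγ.1 x
            rw [if_pos hx] at h3
            have h4 : h (K.c t x) - (h K.inf + a h t) = u h t x - a h t := by unfold u; ring
            rw [h4]
            exact h3
          · intro x hx
            have h3 := hγ.1 x
            rw [if_neg hx, sub_zero] at h3
            exact h3) f h1
      have h3 : |Λ f - (f K.inf + a f t / 2)| ≤ δ := h2
      have h4 : |f (K.c t (fun _ => false)) - f K.inf| ≤ δ := hA3
      rw [abs_le] at h3 h4 hΛf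
      have h5 : |a f t| ≤ 6 * δ := by
        rw [abs_le]
        constructor <;> linarith [h3.1, h3.2, h4.1, h4.2, hΛf.1, hΛf.2]
      linarith

end P_regclosure

end Pool.Agent.Helper349.BCK
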