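import Pool.Agent.Helper349.BCK.Base
import Pool.Agent.Helper349.BCK.P_basics
import Pool.Agent.Helper349.BCK.P_bdd
import Pool.Agent.Helper349.BCK.P_nearlim

set_option autoImplicit false

open Set Filter Topology

namespace Pool.Agent.Helper349.BCK

open P_basics P_bdd P_nearlim

namespace P_reglim

variable {W : Type} [LinearOrder W]

theorem reg_lim [WellFoundedLT W] [SuccOrder W] [NoMaxOrder W] [OrderBot W] (f : C(K W, ℝ))
    (m : Node W) (hm : Node.root ≠ m) (ε : ℝ) (hε : 0 < ε) :
    ∃ r, r < m ∧ ∀ t, r < t → t < m → |a f t - a f m| < ε ∧ Reg ε t f := by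
  obtain ⟨r, hr, h⟩ := near_lim f m hm (ε / 3) (by linarith)
  refine ⟨r, hr, fun t h1 h2 => ?_⟩
  obtain ⟨e1, e2, e3, e4⟩ := h t h1 h2
  have e1' := abs_lt.1 e1
  refine ⟨by linarith, m.val t.len, ?_, ?_, ?_⟩
  · intro x
    by_cases hx : x ∈ cc (m.val t.len)
    · rw [if_pos hx]
      have := abs_lt.1 (e2 x hx)
      rw [abs_le]
      constructor <;> linarith
    · rw [if_neg hx, sub_zero]
      have := e3 x hx
      linarith
  · have hle : t.snoc (m.val t.len) ≤ m := (snoc_le_iff t m _).2 ⟨h2, rfl⟩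
    rcases eq_or_lt_of_le hle with h3 | h3
    · rw [h3, abs_sub_comm]
      linarith
    · have h4 : r < t.snoc (m.val t.len) := h1.trans (lt_snoc t _)
      have h5 := abs_lt.1 (h _ h4 h3).1
      rw [abs_le]
      constructor <;> linarith
  · intro γ' hγ'
    have := e4 γ' hγ'
    linarith

theorem fin_irr_root [OrderBot W] (t : Node W) (h : t ≤ Node.root) : t = Node.root := by
  apply le_antisymm h
  refine (Node.le_def _ _).2 ⟨bot_le, fun α hα => ?_⟩
  exact absurd hα not_lt_bot

theorem fin_irr [WellFoundedLT W] [SuccOrder W] [NoMaxOrder W] [OrderBot W] (f : C(K W, ℝ))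
    (ε : ℝ) (hε : 0 < ε) : {t : Node W | ¬ Reg ε t f}.Finite := by
  have key : ∀ m : Node W, {t : Node W | t ≤ m ∧ ¬ Reg ε t f}.Finite := by
    intro m
    refine node_wf.induction (C := fun m => {t : Node W | t ≤ m ∧ ¬ Reg ε t f}.Finite) m ?_
    intro m ih
    by_cases hm : Node.root = m
    · refine (Set.finite_singleton (Node.root : Node W)).subset ?_
      rintro t ⟨h1, _⟩
      rw [← hm] at h1
      exact fin_irr_root t h1
    · obtain ⟨r, hr, h⟩ := reg_lim f m hm ε hε
      refine ((ih r hr).union (Set.finite_singleton m)).subset ?_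
      rintro t ⟨h1, h2⟩
      rcases eq_or_lt_of_le h1 with h3 | h3
      · exact Or.inr h3
      · left
        rcases comp_of_le t r m h1 hr.le with h4 | h4
        · exact ⟨h4, h2⟩
        · rcases eq_or_lt_of_le h4 with h5 | h5
          · exact ⟨le_of_eq h5.symm, h2⟩
          · exact absurd (h t h5 h3).2 h2
  obtain ⟨T, hT, _, hTb⟩ := bdd f ε hε
  refine (hT.biUnion fun m _ => key m).subset ?_
  intro t ht
  obtain ⟨t', ht', hle⟩ := hTb t ht
  exact Set.mem_biUnion ht' ⟨hle, ht⟩

end P_reglim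

end Pool.Agent.Helper349.BCK
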