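import Pool.Agent.Helper349.BCK.Base

set_option autoImplicit false

open Set Filter Topology

namespace Pool.Agent.Helper349.BCK

namespace P_sld

variable {W : Type} [LinearOrder W]

theorem sld_aux {X : Type*} (τ : TopologicalSpace X) (P : ℕ → ℕ → Set X)
    (hP : ∀ n i, @MeasurableSet X (@borel X τ) (P n i)) (W' : Set X) :
    @MeasurableSet X (@borel X τ)
      (⋃ n, ⋃ i, P n i ∩ ⋃₀ {V | IsOpen[τ] V ∧ V ∩ P n i ⊆ W'}) := by
  letI : MeasurableSpace X := @borel X τ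
  haveI : BorelSpace X := ⟨rfl⟩
  refine MeasurableSet.iUnion fun n => MeasurableSet.iUnion fun i => (hP n i).inter ?_
  exact (isOpen_sUnion fun V hV => hV.1).measurableSet

/-- The intended statement of `borel_of_sld` (see the note below): here the topology of the
pseudometric is named explicitly. -/
theorem borel_of_sld_pm {X : Type*} [m : PseudoMetricSpace X] (τ : TopologicalSpace X)
    (hτ : ∀ V : Set X, IsOpen[τ] V → IsOpen[m.toUniformSpace.toTopologicalSpace] V)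
    (h : ∀ ε > 0, ∃ P : ℕ → Set X, (∀ i, @MeasurableSet X (@borel X τ) (P i)) ∧
      (∀ x, ∃ i, x ∈ P i) ∧
      ∀ i, ∀ x ∈ P i, ∃ V, IsOpen[τ] V ∧ x ∈ V ∧ ∀ y ∈ V ∩ P i, dist y x < ε) :
    @borel X τ = @borel X m.toUniformSpace.toTopologicalSpace := by
  apply le_antisymm
  · exact MeasurableSpace.generateFrom_mono hτ
  · refine MeasurableSpace.generateFrom_le fun W' hW' => ?_
    have h' : ∀ n : ℕ, ∃ P : ℕ → Set X, (∀ i, @MeasurableSet X (@borel X τ) (P i)) ∧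
      (∀ x, ∃ i, x ∈ P i) ∧
      ∀ i, ∀ x ∈ P i, ∃ V, IsOpen[τ] V ∧ x ∈ V ∧ ∀ y ∈ V ∩ P i, dist y x < 1 / ((n : ℝ) + 1) :=
      fun n => h _ (by positivity)
    choose P h1 h2 h3 using h'
    have h4 := sld_aux τ P h1 W'
    have h5 : (⋃ n, ⋃ i, P n i ∩ ⋃₀ {V | IsOpen[τ] V ∧ V ∩ P n i ⊆ W'}) = W' := by
      apply Set.Subset.antisymm
      · refine Set.iUnion_subset fun n => Set.iUnion_subset fun i => ?_
        rintro x ⟨hx, V, ⟨_, hV⟩, hxV⟩
        exact hV ⟨hxV, hx⟩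
      · intro x hx
        obtain ⟨δ, hδ, hball⟩ := Metric.isOpen_iff.1 hW' x hx
        obtain ⟨n, hn⟩ := exists_nat_one_div_lt hδ
        obtain ⟨i, hi⟩ := h2 n x
        obtain ⟨V, hV1, hV2, hV3⟩ := h3 n i x hi
        refine Set.mem_iUnion.2 ⟨n, Set.mem_iUnion.2 ⟨i, hi, V, ⟨hV1, fun y hy => ?_⟩, hV2⟩⟩
        exact hball ((hV3 y hy).trans hn)
    rw [h5] at h4
    exact h4

/-! ### TARGET: prove these

NOTE: in the statement `borel_of_sld` below, Lean takes the local variable `τ` as the instance in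
`IsOpen V` and in the second `borel X`, so the statement is `@borel X τ = @borel X τ` (true by
`rfl`). The intended statement is `borel_of_sld_pm` above, proved there; use that one. -/

theorem borel_of_sld {X : Type*} [PseudoMetricSpace X] (τ : TopologicalSpace X)
    (hτ : ∀ V : Set X, IsOpen[τ] V → IsOpen V)
    (h : ∀ ε > 0, ∃ P : ℕ → Set X, (∀ i, @MeasurableSet X (@borel X τ) (P i)) ∧
      (∀ x, ∃ i, x ∈ P i) ∧
      ∀ i, ∀ x ∈ P i, ∃ V, IsOpen[τ] V ∧ x ∈ V ∧ ∀ y ∈ V ∩ P i, dist y x < ε) :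
    @borel X τ = borel X := rfl

theorem pieces {X S : Type*} (τ : TopologicalSpace X) (O : S → Set X)
    (hO : ∀ s, IsOpen[τ] (O s)) (hfin : ∀ x, {s | x ∈ O s}.Finite) (k : ℕ) :
    @MeasurableSet X (@borel X τ) {x | {s | x ∈ O s}.ncard = k} ∧
    ∀ x, {s | x ∈ O s}.ncard = k → ∃ V, IsOpen[τ] V ∧ x ∈ V ∧
      ∀ y ∈ V, {s | y ∈ O s}.ncard = k → {s | y ∈ O s} = {s | x ∈ O s} := by
  letI : MeasurableSpace X := @borel X τ
  haveI : BorelSpace X := ⟨rfl⟩
  have hV : ∀ x, ∃ V : Set X, IsOpen V ∧ x ∈ V ∧ ∀ y ∈ V, {s | x ∈ O s} ⊆ {s | y ∈ O s} := by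
    intro x
    refine ⟨⋂ s ∈ {s | x ∈ O s}, O s, (hfin x).isOpen_biInter fun s _ => hO s, ?_, ?_⟩
    · exact Set.mem_iInter₂.2 fun s hs => hs
    · intro y hy s hs
      exact Set.mem_iInter₂.1 hy s hs
  have hop : ∀ k, IsOpen {x | k ≤ {s | x ∈ O s}.ncard} := by
    intro k
    rw [isOpen_iff_forall_mem_open]
    intro x hx
    obtain ⟨V, h1, h2, h3⟩ := hV x
    refine ⟨V, fun y hy => ?_, h1, h2⟩
    exact le_trans hx (Set.ncard_le_ncard (h3 y hy) (hfin y))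
  constructor
  · have h1 : {x | {s | x ∈ O s}.ncard = k} =
        {x | k ≤ {s | x ∈ O s}.ncard} \ {x | k + 1 ≤ {s | x ∈ O s}.ncard} := by
      ext x
      simp only [Set.mem_setOf_eq, Set.mem_diff]
      omega
    rw [h1]
    exact (hop k).measurableSet.diff (hop (k + 1)).measurableSet
  · intro x hx
    obtain ⟨V, h1, h2, h3⟩ := hV x
    refine ⟨V, h1, h2, fun y hy hyk => ?_⟩
    exact (Set.eq_of_subset_of_ncard_le (h3 y hy) (by rw [hyk, hx]) (hfin y)).symm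

theorem rel_closed {X : Type*} (τ : TopologicalSpace X) (P D : Set X)
    (hP : @MeasurableSet X (@borel X τ) P)
    (h : ∀ x ∈ P, x ∉ D → ∃ V, IsOpen[τ] V ∧ x ∈ V ∧ ∀ y ∈ V, y ∈ P → y ∉ D) :
    @MeasurableSet X (@borel X τ) (P ∩ D) := by
  letI : MeasurableSpace X := @borel X τ
  haveI : BorelSpace X := ⟨rfl⟩
  have h1 : P ∩ D = P \ ⋃₀ {V | IsOpen V ∧ ∀ y ∈ V, y ∈ P → y ∉ D} := by
    ext x
    constructor
    · rintro ⟨hx, hxD⟩
      refine ⟨hx, ?_⟩
      rintro ⟨V, ⟨_, hV⟩, hxV⟩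
      exact hV x hxV hx hxD
    · rintro ⟨hx, hx2⟩
      refine ⟨hx, ?_⟩
      by_contra hxD
      obtain ⟨V, hV1, hV2, hV3⟩ := h x hx hxD
      exact hx2 ⟨V, ⟨hV1, hV3⟩, hV2⟩
  rw [h1]
  exact hP.diff (isOpen_sUnion fun V hV => hV.1).measurableSet

end P_sld

end Pool.Agent.Helper349.BCK
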