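import Pool.Agent.Helper349.BCK.Base
import Pool.Agent.Helper349.BCK.P_basics
import Pool.Agent.Helper349.BCK.P_closed
import Pool.Agent.Helper349.BCK.P_compare
import Pool.Agent.Helper349.BCK.P_cover
import Pool.Agent.Helper349.BCK.P_drift
import Pool.Agent.Helper349.BCK.P_regclosure
import Pool.Agent.Helper349.BCK.P_reglim
import Pool.Agent.Helper349.BCK.P_sld

set_option autoImplicit false

open Set Filter Topology

namespace Pool.Agent.Helper349.BCK

open P_basics P_closed P_compare P_cover P_drift P_regclosure P_reglim P_sld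

namespace P_wgood

variable {W : Type} [LinearOrder W]

theorem w_good_mono [SuccOrder W] [NoMaxOrder W] {ε δ : ℝ} (h : ε ≤ δ) {t : Node W}
    {f : C(K W, ℝ)} (hf : Reg ε t f) : Reg δ t f := by
  obtain ⟨γ, h1, h2, h3⟩ := hf
  exact ⟨γ, fun x => (h1 x).trans h, h2.trans h, fun γ' hγ' => (h3 γ' hγ').trans h⟩

theorem w_good_inter {X : Type*} [TopologicalSpace X] (V : ℕ → Set X)
    (hV : ∀ i, IsClosed (V i)) (j : ℕ) : IsOpen {f | ∀ i < j, f ∉ V i} := by
  have h : {f | ∀ i < j, f ∉ V i} = ⋂ i ∈ Finset.range j, (V i)ᶜ := by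
    ext x; simp
  rw [h]
  exact isOpen_biInter_finset fun i _ => (hV i).isOpen_compl

theorem w_good_O {X : Type*} [TopologicalSpace X] (A : Set X) (V : ℕ → Set X)
    (hV : ∀ i, IsClosed (V i)) (j : ℕ) : IsOpen ((closure A)ᶜ ∩ {f | ∀ i < j, f ∉ V i}) :=
  isClosed_closure.isOpen_compl.inter (w_good_inter V hV j)

theorem w_good_fin {X S : Type*} [TopologicalSpace X] (I : Set S) (hI : I.Finite) (α : S → X → ℝ)
    (hα : ∀ s, Continuous (α s)) (c : S → ℝ) (ε : ℝ) :
    IsOpen {x | ∀ s ∈ I, |α s x - c s| < ε} := by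
  have h : {x | ∀ s ∈ I, |α s x - c s| < ε} = ⋂ s ∈ I, {x | |α s x - c s| < ε} := by
    ext x; simp
  rw [h]
  exact hI.isOpen_biInter fun s _ => isOpen_lt ((hα s).sub continuous_const).abs continuous_const

theorem w_good_pair {X : Type*} [TopologicalSpace X] (α β : X → ℝ) (hα : Continuous α)
    (hβ : Continuous β) (c d : ℝ) : IsOpen {x | c < |β x| ∧ d < |α x - β x|} :=
  (isOpen_lt continuous_const hβ.abs).inter (isOpen_lt continuous_const (hα.sub hβ).abs)

theorem w_good_sub {X : Type*} [TopologicalSpace X] (α β : X → ℝ) (hα : Continuous α)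
    (hβ : Continuous β) : Continuous fun x => α x - β x := hα.sub hβ

theorem w_good_lt {X : Type*} [TopologicalSpace X] (α : X → ℝ) (hα : Continuous α)
    (c d : ℝ) : IsOpen {x | |α x - c| < d} :=
  isOpen_lt (hα.sub continuous_const).abs continuous_const

theorem w_good_int {X : Type*} [TopologicalSpace X] (A B : Set X) (hA : IsOpen A)
    (hB : IsOpen B) : IsOpen (A ∩ B) := hA.inter hB

theorem w_good_ev [CompactSpace (K W)] (x : K W) :
    @Continuous _ _ wtop _ (fun f : C(K W, ℝ) => f x) := by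
  have h1 : @Continuous _ _ ptop _ (fun f : C(K W, ℝ) => f x) := by
    have h2 : @Continuous _ _ ptop _ (fun f : C(K W, ℝ) => (⇑f : K W → ℝ)) :=
      continuous_induced_dom
    exact @Continuous.comp _ _ _ ptop _ _ _ _ (continuous_apply x) h2
  exact continuous_le_dom wtop_le_ptop h1

theorem w_good_a [CompactSpace (K W)] (t : Node W) :
    @Continuous _ _ wtop _ (fun f : C(K W, ℝ) => a f t) :=
  @w_good_sub _ wtop _ _ (w_good_ev _) (w_good_ev _)

/-- NOTE: `borel_of_sld` above is stated with `(τ : TopologicalSpace X)` as a binder, which Lean uses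
as a local instance, so its `IsOpen V` and `borel X` mean `IsOpen[τ] V` and `@borel X τ` (a
triviality). This is the intended statement, with the metric topology made explicit. -/
theorem w_good_sld {X : Type*} [m : PseudoMetricSpace X] (τ : TopologicalSpace X)
    (hτ : ∀ V : Set X, IsOpen[τ] V → IsOpen[m.toUniformSpace.toTopologicalSpace] V)
    (h : ∀ ε > 0, ∃ P : ℕ → Set X, (∀ i, @MeasurableSet X (@borel X τ) (P i)) ∧
      (∀ x, ∃ i, x ∈ P i) ∧
      ∀ i, ∀ x ∈ P i, ∃ V, IsOpen[τ] V ∧ x ∈ V ∧ ∀ y ∈ V ∩ P i, dist y x < ε) :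
    @borel X τ = @borel X m.toUniformSpace.toTopologicalSpace := by
  apply le_antisymm
  · exact borel_anti (fun V hV => hτ V hV)
  · refine MeasurableSpace.generateFrom_le ?_
    intro U hU
    have hU' : @IsOpen X m.toUniformSpace.toTopologicalSpace U := hU
    have hpos : ∀ n : ℕ, (0 : ℝ) < 1 / ((n : ℝ) + 1) := fun n => by positivity
    choose P hP1 hP2 hP3 using fun n : ℕ => h (1 / ((n : ℝ) + 1)) (hpos n)
    have hUeq : U = ⋃ n : ℕ, ⋃ i : ℕ, (⋃₀ {V | IsOpen[τ] V ∧ V ∩ P n i ⊆ U}) ∩ P n i := by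
      ext x
      simp only [mem_iUnion]
      constructor
      · intro hx
        obtain ⟨r, hr, hrU⟩ := (@Metric.isOpen_iff X m U).1 hU' x hx
        obtain ⟨n, hn⟩ := exists_nat_one_div_lt hr
        obtain ⟨i, hi⟩ := hP2 n x
        obtain ⟨V, hV1, hV2, hV3⟩ := hP3 n i x hi
        refine ⟨n, i, ⟨V, ⟨hV1, fun y hy => hrU ?_⟩, hV2⟩, hi⟩
        exact (hV3 y hy).trans hn
      · rintro ⟨n, i, ⟨V, ⟨hV1, hV2⟩, hxV⟩, hi⟩
        exact hV2 ⟨hxV, hi⟩
    rw [hUeq]
    refine @MeasurableSet.iUnion X ℕ (@borel X τ) _ _ fun n =>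
      @MeasurableSet.iUnion X ℕ (@borel X τ) _ _ fun i => ?_
    refine @MeasurableSet.inter X (@borel X τ) _ _ ?_ (hP1 n i)
    refine MeasurableSpace.measurableSet_generateFrom ?_
    exact @isOpen_sUnion X τ _ fun V hV => hV.1

theorem w_good_le [CompactSpace (K W)] (V : Set C(K W, ℝ)) (h : IsOpen[wtop] V) : IsOpen V := by
  have h1 : Continuous (fun f : C(K W, ℝ) => fun φ : C(K W, ℝ) →L[ℝ] ℝ => φ f) :=
    continuous_pi fun φ => φ.continuous
  exact (continuous_iff_le_induced.1 h1) V h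

theorem w_good [CompactSpace (K W)] [WellFoundedLT W] [SuccOrder W] [NoMaxOrder W] [OrderBot W] :
    @borel C(K W, ℝ) wtop = borel C(K W, ℝ) := by
  classical
  refine w_good_sld wtop w_good_le ?_
  intro ε₀ hε₀
  obtain ⟨ε, hεd⟩ : ∃ ε : ℝ, ε = ε₀ / 100 := ⟨_, rfl⟩
  have hε : 0 < ε := by rw [hεd]; positivity
  obtain ⟨V, hV1, hV2, hV3⟩ := exists_cover (W := W) ε hε
  have hVw : ∀ j t, IsClosed[wtop] (V j t) := fun j t => by
    have h1 : IsOpen[ptop] (V j t)ᶜ := (@isOpen_compl_iff _ _ ptop).2 (hV1 j t)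
    exact (@isOpen_compl_iff _ _ wtop).1 (wtop_le_ptop _ h1)
  obtain ⟨d, hd⟩ : ∃ d : ℕ → ℝ, d = fun n : ℕ => ε / (42 * ((n : ℝ) + 1)) := ⟨_, rfl⟩
  have hd0 : ∀ n, 0 < d n := fun n => by rw [hd]; positivity
  have hd42 : ∀ n, 42 * d n = ε / ((n : ℝ) + 1) := fun n => by
    rw [hd]; field_simp
  have hd42' : ∀ n, 42 * d n ≤ ε := fun n => by
    rw [hd42]
    apply div_le_self hε.le
    have : (0 : ℝ) ≤ n := by positivity
    linarith
  obtain ⟨O, hOd⟩ : ∃ O : ℕ → Node W × ℕ → Set C(K W, ℝ), O = fun n s =>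
      (@closure _ wtop {h : C(K W, ℝ) | Reg (d n) s.1 h})ᶜ ∩ {f | ∀ i < s.2, f ∉ V i s.1} :=
    ⟨_, rfl⟩
  have hOm : ∀ n t j f, f ∈ O n (t, j) ↔
      f ∉ @closure _ wtop {h : C(K W, ℝ) | Reg (d n) t h} ∧ ∀ i < j, f ∉ V i t := by
    intro n t j f; rw [hOd]; exact Iff.rfl
  have hO : ∀ n s, IsOpen[wtop] (O n s) := by
    intro n s
    rw [hOd]
    exact @w_good_O _ wtop _ (fun i => V i s.1) (fun i => hVw i s.1) s.2
  obtain ⟨I, hId⟩ : ∃ I : ℕ → C(K W, ℝ) → Set (Node W), I = fun n f =>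
      {t | f ∉ @closure _ wtop {h : C(K W, ℝ) | Reg (d n) t h}} := ⟨_, rfl⟩
  have hIm : ∀ n f t, t ∈ I n f ↔ f ∉ @closure _ wtop {h : C(K W, ℝ) | Reg (d n) t h} := by
    intro n f t; rw [hId]; exact Iff.rfl
  have hIfin : ∀ n f, (I n f).Finite := by
    intro n f
    refine (fin_irr f (d n) (hd0 n)).subset ?_
    intro t ht
    rw [hIm] at ht
    intro hr
    exact ht (@subset_closure _ wtop _ f hr)
  have hIO : ∀ n f t, t ∈ I n f ↔ (t, 0) ∈ {s | f ∈ O n s} := by
    intro n f t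
    rw [hIm]
    change _ ↔ f ∈ O n (t, 0)
    rw [hOm]
    constructor
    · exact fun h => ⟨h, fun i hi => absurd hi (Nat.not_lt_zero i)⟩
    · exact fun h => h.1
  have hIeq : ∀ n f g, {s | f ∈ O n s} = {s | g ∈ O n s} → I n f = I n g := by
    intro n f g h
    ext t
    rw [hIO, hIO, h]
  have hfin : ∀ n f, {s | f ∈ O n s}.Finite := by
    intro n f
    choose j hj using hV2 f
    refine Set.Finite.subset ((hIfin n f).biUnion fun t _ =>
      (Set.finite_singleton t).prod (Set.finite_Iic (j t))) ?_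
    rintro ⟨t, i⟩ hti
    have hti' := (hOm n t i f).1 hti
    rw [Set.mem_iUnion₂]
    refine ⟨t, (hIm n f t).2 hti'.1, ?_⟩
    refine ⟨rfl, ?_⟩
    change i ≤ j t
    by_contra h
    exact hti'.2 (j t) (not_le.1 h) (hj t)
  have hreg : ∀ n f t, t ∉ I n f → Reg (42 * d n) t f := by
    intro n f t ht
    rw [hIm, not_not] at ht
    exact reg_closure (d n) (hd0 n) t f ht
  obtain ⟨D, hDd⟩ : ∃ D : ℕ → Set C(K W, ℝ), D = fun n => {f | ∀ s s' : Node W, s ≤ s' →
      (∀ t, s ≤ t → t < s' → t ∉ I n f) → 10 * ε < |a f s'| → |a f s - a f s'| ≤ ε} := ⟨_, rfl⟩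
  have hDm : ∀ n f, f ∈ D n ↔ ∀ s s' : Node W, s ≤ s' →
      (∀ t, s ≤ t → t < s' → t ∉ I n f) → 10 * ε < |a f s'| → |a f s - a f s'| ≤ ε := by
    intro n f; rw [hDd]; exact Iff.rfl
  refine ⟨fun i => {f | {s | f ∈ O i.unpair.1 s}.ncard = i.unpair.2} ∩ D i.unpair.1, ?_, ?_, ?_⟩
  · intro i
    refine rel_closed wtop _ _ (pieces wtop (O i.unpair.1) (hO _) (hfin _) i.unpair.2).1 ?_
    intro f hf hfD
    rw [hDm] at hfD
    push Not at hfD
    obtain ⟨s, s', h1, h2, h3, h4⟩ := hfD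
    obtain ⟨V₁, hV₁, hfV₁, hV₁'⟩ :=
      (pieces wtop (O i.unpair.1) (hO _) (hfin _) i.unpair.2).2 f hf
    refine ⟨V₁ ∩ {g | 10 * ε < |a g s'| ∧ ε < |a g s - a g s'|},
      @w_good_int _ wtop _ _ hV₁ (@w_good_pair _ wtop _ _ (w_good_a s) (w_good_a s') _ _),
      ⟨hfV₁, h3, h4⟩, ?_⟩
    rintro g ⟨hg1, hg2, hg3⟩ hgP hgD
    have h5 := hIeq _ _ _ (hV₁' g hg1 hgP)
    rw [hDm] at hgD
    have h6 := hgD s s' h1 (fun t ht ht' => by rw [h5]; exact h2 t ht ht') hg2
    linarith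
  · intro f
    obtain ⟨δ, hδ, hdr⟩ := drift_all f ε (10 * ε) hε (by linarith)
    obtain ⟨n, hn⟩ := exists_nat_gt (ε / δ)
    refine ⟨Nat.pair n ({s | f ∈ O n s}.ncard), ?_⟩
    simp only [Nat.unpair_pair]
    refine ⟨rfl, ?_⟩
    rw [hDm]
    intro s s' h1 h2 h3
    refine hdr s s' h1 (fun t ht ht' => ?_) h3
    refine w_good_mono ?_ (hreg n f t (h2 t ht ht'))
    rw [hd42, div_le_iff₀ (by positivity)]
    rw [div_lt_iff₀ hδ] at hn
    nlinarith
  · intro i f hf
    obtain ⟨n, hnd⟩ : ∃ n, n = i.unpair.1 := ⟨_, rfl⟩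
    obtain ⟨k, hkd⟩ : ∃ k, k = i.unpair.2 := ⟨_, rfl⟩
    beta_reduce at hf ⊢
    rw [← hnd, ← hkd] at hf ⊢
    obtain ⟨hf1, hf2⟩ := hf
    obtain ⟨V₁, hV₁, hfV₁, hV₁'⟩ := (pieces wtop (O n) (hO n) (hfin n) k).2 f hf1
    refine ⟨V₁ ∩ ({g | ∀ t ∈ I n f, |a g t - a f t| < ε} ∩
      ({g | |a g Node.root - a f Node.root| < ε} ∩ {g | |g K.inf - f K.inf| < ε})),
      @w_good_int _ wtop _ _ hV₁ (@w_good_int _ wtop _ _
        (@w_good_fin _ _ wtop (I n f) (hIfin n f) (fun t g => a g t) (fun t => w_good_a t)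
          (fun t => a f t) ε)
        (@w_good_int _ wtop _ _ (@w_good_lt _ wtop _ (w_good_a _) _ _)
          (@w_good_lt _ wtop _ (w_good_ev _) _ _))),
      ⟨hfV₁, ?_, ?_, ?_⟩, ?_⟩
    · intro t _
      rw [sub_self, abs_zero]; exact hε
    · change |a f Node.root - a f Node.root| < ε
      rw [sub_self, abs_zero]; exact hε
    · change |f K.inf - f K.inf| < ε
      rw [sub_self, abs_zero]; exact hε
    rintro g ⟨⟨hg1, hg2, hg3, hg4⟩, hgP, hgD⟩
    have hZ := hV₁' g hg1 hgP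
    have hI := hIeq _ _ _ hZ
    have hgoodf : Good f (I n f) ε := by
      refine ⟨fun t ht => w_good_mono (hd42' n) (hreg n f t ht), ?_⟩
      exact (hDm n f).1 hf2
    have hgoodg : Good g (I n f) ε := by
      refine ⟨fun t ht => w_good_mono (hd42' n) (hreg n g t (by rw [hI]; exact ht)), ?_⟩
      have := (hDm n g).1 hgD
      rw [hI] at this
      exact this
    have hcmp := compare f g (I n f) (hIfin n f) ε hε hgoodf hgoodg (by
      intro t ht
      have hex := hV2 f t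
      obtain ⟨j, hjd⟩ : ∃ j, j = Nat.find hex := ⟨_, rfl⟩
      have hj1 : f ∈ V j t := by rw [hjd]; exact Nat.find_spec hex
      have hj2 : ∀ i < j, f ∉ V i t := by
        intro i hi; rw [hjd] at hi; exact Nat.find_min hex hi
      have hfO : (t, j) ∈ {s | f ∈ O n s} := (hOm n t j f).2 ⟨(hIm n f t).1 ht, hj2⟩
      have hfO' : (t, j + 1) ∉ {s | f ∈ O n s} := fun h =>
        ((hOm n t (j + 1) f).1 h).2 j (Nat.lt_succ_self j) hj1
      rw [← hZ] at hfO hfO'
      have hgO := (hOm n t j g).1 hfO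
      have hgj : g ∈ V j t := by
        by_contra hgj
        apply hfO'
        refine (hOm n t (j + 1) g).2 ⟨hgO.1, fun i hi => ?_⟩
        rcases Nat.lt_succ_iff_lt_or_eq.1 hi with h | h
        · exact hgO.2 i h
        · rw [h]; exact hgj
      obtain ⟨h7, h8⟩ := hV3 j t f hj1 g hgj
      refine ⟨?_, h7, h8⟩
      have := hg2 t ht
      rw [abs_sub_comm]
      exact this.le) (by
        rw [abs_sub_comm]
        exact le_of_lt hg3)
    have h35 : dist g f ≤ 35 * ε := by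
      rw [ContinuousMap.dist_le (by positivity)]
      intro x
      have h9 := hcmp x
      have h10 : |g K.inf - f K.inf| < ε := hg4
      rw [Real.dist_eq]
      rw [abs_le] at h9 ⊢
      rw [abs_lt] at h10
      constructor <;> linarith [h9.1, h9.2, h10.1, h10.2]
    rw [hεd] at h35
    linarith

end P_wgood

end Pool.Agent.Helper349.BCK
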